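import Pool.Agent.CRM31.ProbG

set_option autoImplicit false

open MeasureTheory ProbabilityTheory Filter Topology

namespace Pool.Agent.CRM31

variable {Ω : Type*} [MeasurableSpace Ω]

lemma no_blockJ {μ : Measure Ω} [IsProbabilityMeasure μ] {A : ℕ → Set Ω}
    (hA : ∀ n, MeasurableSet (A n)) (hind : iIndepSet A μ) (C : Set ℕ) (I : ℕ → Finset ℕ)
    (J : Finset ℕ) (hI : ∀ i ∈ J, ∀ k ∈ J, i ≠ k → Disjoint (I i) (I k)) :
    μ.real (⋂ i ∈ J, (blk A C (I i))ᶜ) = ∏ i ∈ J, (1 - μ.real (blk A C (I i))) := by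
  classical
  induction J using Finset.induction_on with
  | empty => simp
  | insert k J hk ih =>
    have hI' : ∀ i ∈ J, ∀ l ∈ J, i ≠ l → Disjoint (I i) (I l) := fun i hi l hl h =>
      hI i (Finset.mem_insert_of_mem hi) l (Finset.mem_insert_of_mem hl) h
    rw [Finset.prod_insert hk, ← ih hI', mul_comm]
    have hset : (⋂ i ∈ insert k J, (blk A C (I i))ᶜ) =
        (⋂ i ∈ J, (blk A C (I i))ᶜ) ∩ (blk A C (I k))ᶜ := by
      rw [Finset.set_biInter_insert, Set.inter_comm]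
    rw [hset]
    set T : Set ℕ := {n | ∃ i ∈ J, n ∈ I i} with hT
    set U : Set ℕ := {n | n ∈ I k} with hU
    have hdis : Disjoint T U := by
      rw [Set.disjoint_left]
      rintro n ⟨i, hi, hn⟩ hn2
      have hne : i ≠ k := fun h => hk (h ▸ hi)
      exact (Finset.disjoint_left.mp (hI i (Finset.mem_insert_of_mem hi) k
        (Finset.mem_insert_self _ _) hne)) hn hn2
    have hindep := indep_iSup_of_disjoint (m := fun n => MeasurableSpace.generateFrom {A n})
      (gen_le hA) ((iIndepSet_iff_iIndep A μ).mp hind) hdis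
    have hm1 : MeasurableSet[⨆ n ∈ T, MeasurableSpace.generateFrom {A n}]
        (⋂ i ∈ J, (blk A C (I i))ᶜ) := by
      refine @Finset.measurableSet_biInter Ω ℕ (⨆ n ∈ T, MeasurableSpace.generateFrom {A n}) _
        J (fun i hi => ?_)
      refine @MeasurableSet.compl Ω _ (⨆ n ∈ T, MeasurableSpace.generateFrom {A n}) ?_
      exact blk_meas_sup C (I i) T (fun n hn => ⟨i, hi, hn⟩)
    have hm2 : MeasurableSet[⨆ n ∈ U, MeasurableSpace.generateFrom {A n}]
        ((blk A C (I k))ᶜ) := by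
      refine @MeasurableSet.compl Ω _ (⨆ n ∈ U, MeasurableSpace.generateFrom {A n}) ?_
      exact blk_meas_sup C (I k) U (fun n hn => hn)
    have h1 := (Indep_iff _ _ μ).mp hindep _ _ hm1 hm2
    have h2 : μ.real ((⋂ i ∈ J, (blk A C (I i))ᶜ) ∩ (blk A C (I k))ᶜ) =
        μ.real (⋂ i ∈ J, (blk A C (I i))ᶜ) * μ.real ((blk A C (I k))ᶜ) := by
      unfold Measure.real
      rw [h1, ENNReal.toReal_mul]
    rw [h2, measureReal_compl (blk_measurable hA C (I k))]
    simp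

lemma hitJ {μ : Measure Ω} [IsProbabilityMeasure μ] {A : ℕ → Set Ω}
    (hA : ∀ n, MeasurableSet (A n)) (hind : iIndepSet A μ) (C : ℕ → Set ℕ)
    (I : ℕ → ℕ → Finset ℕ) (J : ℕ → Finset ℕ)
    (hI : ∀ v, ∀ i ∈ J v, ∀ k ∈ J v, i ≠ k → Disjoint (I v i) (I v k))
    (h : ∀ᶠ v : ℕ in atTop, (v : ℝ) ≤ ∑ i ∈ J v, μ.real (blk A (C v) (I v i))) :
    ∀ᵐ ω ∂μ, ∀ᶠ v : ℕ in atTop, ∃ i ∈ J v, ω ∈ blk A (C v) (I v i) := by
  have h1 := bc μ (fun v => ⋂ i ∈ J v, (blk A (C v) (I v i))ᶜ)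
    (fun v => Real.exp (- (v : ℝ))) Real.summable_exp_neg_nat ?_
  · filter_upwards [h1] with ω hω
    filter_upwards [hω] with v hv
    simp only [Set.mem_iInter, Set.mem_compl_iff, not_forall, not_not] at hv
    obtain ⟨i, hi, hωi⟩ := hv
    exact ⟨i, hi, hωi⟩
  · filter_upwards [h] with v hv
    rw [no_blockJ hA hind (C v) (I v) (J v) (hI v)]
    have h2 : ∏ i ∈ J v, (1 - μ.real (blk A (C v) (I v i))) ≤
        Real.exp (- ∑ i ∈ J v, μ.real (blk A (C v) (I v i))) := by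
      rw [← Finset.sum_neg_distrib, Real.exp_sum]
      refine Finset.prod_le_prod (fun i _ => ?_) (fun i _ => ?_)
      · have : μ.real (blk A (C v) (I v i)) ≤ 1 := measureReal_le_one
        linarith
      · have := Real.add_one_le_exp (- μ.real (blk A (C v) (I v i)))
        linarith
    refine le_trans h2 ?_
    rw [Real.exp_le_exp]
    linarith

lemma blk_empty_eq {μ : Measure Ω} [IsProbabilityMeasure μ] {A : ℕ → Set Ω}
    (hA : ∀ n, MeasurableSet (A n)) (hind : iIndepSet A μ) (I : Finset ℕ) :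
    μ.real (blk A ∅ I) = ∏ n ∈ I, (1 - μ.real (A n)) := by
  rw [blk_meas hind]
  refine Finset.prod_congr rfl (fun n _ => ?_)
  rw [pat_of_notMem (Set.notMem_empty n), measureReal_compl (hA n)]
  simp

/-- At most one selection in `(a, a + h]`, late `a`. -/
lemma few_late {μ : Measure Ω} [IsProbabilityMeasure μ] {A : ℕ → Set Ω}
    (hA : ∀ n, MeasurableSet (A n)) (hind : iIndepSet A μ) {n1 : ℕ}
    (hn1 : ∀ n, n1 ≤ n → μ.real (A n) ≤ 1 / 2) {a h : ℕ} (ha : n1 ≤ a) (hh : 1 ≤ h) :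
    μ.real {ω | ∀ s ∈ Finset.Ioc a (a + h), ∀ t ∈ Finset.Ioc a (a + h),
      ω ∈ A s → ω ∈ A t → s = t} ≤ 2 * h * pp (fun n => μ.real (A n)) a h := by
  have hne : (Finset.Ioc a (a + h)).Nonempty := ⟨a + 1, Finset.mem_Ioc.mpr ⟨by omega, by omega⟩⟩
  refine le_trans (measureReal_mono (few_subset hne) (measure_ne_top _ _)) ?_
  refine le_trans (measureReal_biUnion_finset_le _ _) ?_
  have h1 : ∀ c ∈ Finset.Ioc a (a + h), μ.real (blk A ∅ ((Finset.Ioc a (a + h)).erase c)) ≤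
      2 * pp (fun n => μ.real (A n)) a h := by
    intro c hc
    rw [blk_empty_eq hA hind]
    unfold pp
    rw [← Finset.mul_prod_erase _ _ hc]
    have h2 : μ.real (A c) ≤ 1 / 2 := hn1 c (by have := (Finset.mem_Ioc.mp hc).1; omega)
    have h3 : 0 ≤ ∏ n ∈ (Finset.Ioc a (a + h)).erase c, (1 - μ.real (A n)) := by
      refine Finset.prod_nonneg (fun n _ => ?_)
      have : μ.real (A n) ≤ 1 := measureReal_le_one
      linarith
    nlinarith
  refine le_trans (Finset.sum_le_card_nsmul _ _ _ h1) ?_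
  rw [Nat.card_Ioc, Nat.add_sub_cancel_left, nsmul_eq_mul]
  apply le_of_eq
  ring

section
variable {μ : Measure Ω} [IsProbabilityMeasure μ] {A : ℕ → Set Ω} {c₁ c₂ : ℝ}

lemma denseG_ae (hA : ∀ n, MeasurableSet (A n)) (hind : iIndepSet A μ)
    (hT : TwoSided (fun n => μ.real (A n)) c₁ c₂) {n1 : ℕ}
    (hn1 : ∀ n, n1 ≤ n → μ.real (A n) ≤ 1 / 2) {ε : ℝ} (hε : 0 < ε) :
    ∀ᵐ ω ∂μ, ∀ᶠ v : ℕ in atTop, ∀ a h : ℕ, n1 ≤ a → (1 + ε) * v ≤ h → a + h < gx hT v →
      ∃ s t : ℕ, a < s ∧ s < t ∧ t ≤ a + h ∧ ω ∈ A s ∧ ω ∈ A t := by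
  set hv : ℕ → ℕ := fun v => ⌈(1 + ε) * (v : ℝ)⌉₊ with hhv
  set few : ℕ → ℕ → Set Ω := fun a h => {ω | ∀ s ∈ Finset.Ioc a (a + h),
    ∀ t ∈ Finset.Ioc a (a + h), ω ∈ A s → ω ∈ A t → s = t} with hfew
  set bad : ℕ → Set Ω := fun v => ⋃ a ∈ (Finset.range (gx hT v - 1 + 1 - hv v)).filter
    (fun a => n1 ≤ a), few a (hv v) with hbad
  obtain ⟨κ, hκ, hls⟩ := long_sum hT hε
  obtain ⟨C, hC, hup⟩ := grid_upper hT
  have hbound : ∀ᶠ v : ℕ in atTop, μ.real (bad v) ≤
      (2 * (2 + ε) * C ^ 3) * (1 / (v : ℝ) ^ 2) := by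
    have hE := (isLittleO_pow_exp_pos_mul_atTop 6 hκ).bound (c := 1) one_pos
    have hE' := (lam_top hT).eventually hE
    filter_upwards [hls, hup, hE', (lam_top hT).eventually_gt_atTop 0, eventually_ge_atTop 1,
      (gx_top hT).eventually_ge_atTop 1] with v h1 h2 h3 h4 h5 h6
    have hvr : (1 : ℝ) ≤ v := by exact_mod_cast h5
    have hv0 : (0 : ℝ) < v := by linarith
    rw [one_mul, Real.norm_eq_abs, Real.norm_eq_abs, abs_of_nonneg (by positivity),
      abs_of_nonneg (Real.exp_pos _).le] at h3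
    have hhle : (1 + ε) * (v : ℝ) ≤ hv v := Nat.le_ceil _
    have hhlt : (hv v : ℝ) < (1 + ε) * (v : ℝ) + 1 := Nat.ceil_lt_add_one (by positivity)
    have hvh : v ≤ hv v := by
      have h7 : (v : ℝ) ≤ hv v := by nlinarith
      exact_mod_cast h7
    -- union bound
    have h7 : μ.real (bad v) ≤ 2 * (hv v) * NN (fun n => μ.real (A n)) (gx hT v - 1) (hv v) := by
      refine le_trans (measureReal_biUnion_finset_le _ _) ?_
      have h8 : ∑ a ∈ (Finset.range (gx hT v - 1 + 1 - hv v)).filter (fun a => n1 ≤ a),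
          μ.real (few a (hv v)) ≤
          ∑ a ∈ (Finset.range (gx hT v - 1 + 1 - hv v)).filter (fun a => n1 ≤ a),
            2 * (hv v) * pp (fun n => μ.real (A n)) a (hv v) := by
        refine Finset.sum_le_sum (fun a ha => ?_)
        exact few_late hA hind hn1 (Finset.mem_filter.mp ha).2 (by omega)
      refine le_trans h8 ?_
      unfold NN
      rw [Finset.mul_sum]
      exact Finset.sum_le_sum_of_subset_of_nonneg (Finset.filter_subset _ _)
        (fun a _ _ => mul_nonneg (by positivity) (pp_nonneg hT _ _))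
    have h8 : NN (fun n => μ.real (A n)) (gx hT v - 1) (hv v) ≤ Real.exp (- (κ * lam hT v)) := by
      have h9 := NN_shift hT (gx hT v - 1) v (hv v - v) (E := κ * lam hT v) (fun a ha => by
        refine h1 a (hv v - v) (by omega) ?_
        rw [Nat.cast_sub hvh]
        linarith)
      rw [Nat.add_sub_cancel' hvh] at h9
      have h10 : NN (fun n => μ.real (A n)) (gx hT v - 1) v < 1 := gx_min hT (by omega)
      refine le_trans h9 ?_
      have := Real.exp_pos (- (κ * lam hT v))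
      nlinarith
    have h9 : Real.exp (- (κ * lam hT v)) ≤ C ^ 3 / (v : ℝ) ^ 3 := by
      rw [Real.exp_neg, ← one_div]
      rw [div_le_div_iff₀ (Real.exp_pos _) (by positivity), one_mul]
      have h10 : (v : ℝ) ^ 3 ≤ (C * lam hT v ^ 2) ^ 3 := pow_le_pow_left₀ hv0.le h2 3
      calc (v : ℝ) ^ 3 ≤ (C * lam hT v ^ 2) ^ 3 := h10
        _ = C ^ 3 * lam hT v ^ 6 := by ring
        _ ≤ C ^ 3 * Real.exp (κ * lam hT v) := mul_le_mul_of_nonneg_left h3 (by positivity)
    have h10 : (hv v : ℝ) ≤ (2 + ε) * v := by nlinarith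
    calc μ.real (bad v) ≤ 2 * (hv v) * NN (fun n => μ.real (A n)) (gx hT v - 1) (hv v) := h7
      _ ≤ 2 * ((2 + ε) * v) * (C ^ 3 / (v : ℝ) ^ 3) := by
          refine mul_le_mul ?_ (le_trans h8 h9) ?_ (by positivity)
          · exact mul_le_mul_of_nonneg_left h10 (by norm_num)
          · exact Finset.sum_nonneg (fun a _ => pp_nonneg hT _ _)
      _ = (2 * (2 + ε) * C ^ 3) * (1 / (v : ℝ) ^ 2) := by
          field_simp
  have hsum : Summable (fun v : ℕ => (2 * (2 + ε) * C ^ 3) * (1 / (v : ℝ) ^ 2)) :=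
    (Real.summable_one_div_nat_pow.mpr (by norm_num)).mul_left _
  filter_upwards [bc μ bad _ hsum hbound] with ω hω
  filter_upwards [hω, eventually_ge_atTop 1, (gx_top hT).eventually_ge_atTop 1]
    with v h1 h2 h3 a h ha hh hah
  have hle : hv v ≤ h := Nat.ceil_le.mpr hh
  have h4 : ω ∉ few a (hv v) := by
    intro hcon
    apply h1
    simp only [hbad, Set.mem_iUnion]
    exact ⟨a, Finset.mem_filter.mpr ⟨Finset.mem_range.mpr (by omega), ha⟩, hcon⟩
  simp only [hfew, Set.mem_ofPred_eq] at h4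
  push Not at h4
  obtain ⟨s, hs, t, ht, hωs, hωt, hst⟩ := h4
  have hs' := Finset.mem_Ioc.mp hs
  have ht' := Finset.mem_Ioc.mp ht
  rcases lt_or_gt_of_ne hst with hlt | hlt
  · exact ⟨s, t, hs'.1, hlt, by omega, hωs, hωt⟩
  · exact ⟨t, s, ht'.1, hlt, by omega, hωt, hωs⟩

end

end Pool.Agent.CRM31
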