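import Pool.Agent.CRM31.AeG

set_option autoImplicit false

open MeasureTheory ProbabilityTheory Filter Topology

namespace Pool.Agent.CRM31

lemma JJ_disjoint {v r g : ℕ} (hg : g ≤ v) {i k : ℕ} (hik : i ≠ k) :
    Disjoint (Finset.Ioc (r + i * v) (r + i * v + g)) (Finset.Ioc (r + k * v) (r + k * v + g)) := by
  rw [Finset.disjoint_left]
  intro n hn hn2
  have h1 := Finset.mem_Ioc.mp hn
  have h2 := Finset.mem_Ioc.mp hn2
  rcases lt_or_gt_of_ne hik with h | h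
  · have h3 : (i + 1) * v ≤ k * v := Nat.mul_le_mul_right v h
    have h4 : (i + 1) * v = i * v + v := by ring
    omega
  · have h3 : (k + 1) * v ≤ i * v := Nat.mul_le_mul_right v h
    have h4 : (k + 1) * v = k * v + v := by ring
    omega

variable {Ω : Type*} [MeasurableSpace Ω]

section
variable {μ : Measure Ω} [IsProbabilityMeasure μ] {A : ℕ → Set Ω} {c₁ c₂ : ℝ}

lemma emptG_ae (hA : ∀ n, MeasurableSet (A n)) (hind : iIndepSet A μ)
    (hT : TwoSided (fun n => μ.real (A n)) c₁ c₂) {ε : ℝ} (hε : 0 < ε) (hε1 : ε < 1) :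
    ∀ᵐ ω ∂μ, ∀ᶠ v : ℕ in atTop, ∃ b h : ℕ, v ≤ b ∧ b + h ≤ gx hT v ∧ (1 - ε) * v ≤ h ∧
      ∀ m, b < m → m ≤ b + h → ¬ ω ∈ A m := by
  classical
  obtain ⟨κ, hκ, hp⟩ := prog hT hε hε1
  obtain ⟨C, hC, hup⟩ := grid_upper hT
  obtain ⟨v0, hp⟩ := eventually_atTop.mp hp
  choose! r hr using hp
  have h1 := hitJ hA hind (fun _ => ∅)
    (fun v i => Finset.Ioc (r v + i * v) (r v + i * v + (v - ⌊ε * (v : ℝ)⌋₊)))
    (fun v => JJ (gx hT v) v (r v))
    (fun v i _ k _ hik => JJ_disjoint (Nat.sub_le _ _) hik) ?_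
  · filter_upwards [h1] with ω hω
    filter_upwards [hω, eventually_ge_atTop 1] with v hv hv1
    obtain ⟨i, hi, hωi⟩ := hv
    have hi2 := (Finset.mem_filter.mp hi).2
    set t : ℕ := ⌊ε * (v : ℝ)⌋₊ with ht
    have hvr : (0 : ℝ) < v := by exact_mod_cast hv1
    have htle : (t : ℝ) ≤ ε * v := Nat.floor_le (by positivity)
    have htv : t ≤ v := by
      have h10 : (t : ℝ) ≤ v := by nlinarith
      exact_mod_cast h10
    refine ⟨r v + i * v, v - t, hi2.1, ?_, ?_, ?_⟩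
    · have := hi2.2
      omega
    · rw [Nat.cast_sub htv]
      linarith
    · intro m hm1 hm2 hmem
      exact ((mem_blk.mp hωi) m (Finset.mem_Ioc.mpr ⟨hm1, hm2⟩)).mp hmem
  · have hE := (isLittleO_pow_exp_pos_mul_atTop 7 hκ).bound (c := 1) one_pos
    have hE' := (lam_top hT).eventually hE
    filter_upwards [eventually_ge_atTop v0, hE', hup, eventually_ge_atTop 1,
      (lam_top hT).eventually_ge_atTop (2 * C ^ 2 + 1)] with v h2 h3 h4 h5 h6
    have hvr : (0 : ℝ) < v := by exact_mod_cast h5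
    have hC2 : 0 ≤ C ^ 2 := by positivity
    have hl1 : 1 ≤ lam hT v := by linarith
    have hl0 : 0 < lam hT v := by linarith
    rw [one_mul, Real.norm_eq_abs, Real.norm_eq_abs, abs_of_nonneg (by positivity),
      abs_of_nonneg (Real.exp_pos _).le] at h3
    have h7 : ∑ i ∈ JJ (gx hT v) v (r v),
        μ.real (blk A ∅ (Finset.Ioc (r v + i * v) (r v + i * v + (v - ⌊ε * (v : ℝ)⌋₊)))) =
        ∑ i ∈ JJ (gx hT v) v (r v), pp (fun n => μ.real (A n)) (r v + i * v)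
          (v - ⌊ε * (v : ℝ)⌋₊) :=
      Finset.sum_congr rfl (fun i _ => blk_empty_eq hA hind _)
    rw [h7]
    refine le_trans ?_ (hr v h2)
    rw [le_div_iff₀ (by positivity)]
    have h8 : (v : ℝ) ^ 2 ≤ (C * lam hT v ^ 2) ^ 2 := pow_le_pow_left₀ hvr.le h4 2
    have h9 : 2 * (C * lam hT v ^ 2) ^ 2 ≤ lam hT v ^ 7 := by
      have h10 : 2 * C ^ 2 ≤ lam hT v ^ 3 := by
        have h11 : lam hT v ≤ lam hT v ^ 3 := by
          have : lam hT v ^ 3 = lam hT v * lam hT v ^ 2 := by ring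
          nlinarith [sq_nonneg (lam hT v - 1)]
        linarith
      have h12 : 0 ≤ lam hT v ^ 4 := by positivity
      calc 2 * (C * lam hT v ^ 2) ^ 2 = (2 * C ^ 2) * lam hT v ^ 4 := by ring
        _ ≤ lam hT v ^ 3 * lam hT v ^ 4 := mul_le_mul_of_nonneg_right h10 h12
        _ = lam hT v ^ 7 := by ring
    calc (v : ℝ) * (2 * v) = 2 * (v : ℝ) ^ 2 := by ring
      _ ≤ 2 * (C * lam hT v ^ 2) ^ 2 := by linarith
      _ ≤ lam hT v ^ 7 := h9
      _ ≤ _ := h3

lemma centG_ae (hA : ∀ n, MeasurableSet (A n)) (hind : iIndepSet A μ)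
    (hT : TwoSided (fun n => μ.real (A n)) c₁ c₂) {ε : ℝ} (hε : 0 < ε) (hε1 : ε < 1) :
    ∀ᵐ ω ∂μ, ∀ᶠ v : ℕ in atTop, ∃ c h : ℕ, v + h ≤ c ∧ c + h < gx hT v ∧
      (1 - ε) / 2 * v ≤ h ∧ ω ∈ A c ∧ ∀ m, c ≤ m + h → m ≤ c + h → ω ∈ A m → m = c := by
  classical
  have hq1 : ∀ n, μ.real (A n) ≤ 1 := fun n => measureReal_le_one
  obtain ⟨κ, hκ, hp⟩ := prog hT (ε := ε / 4) (by positivity) (by linarith)
  obtain ⟨κ₂, hκ₂, hcen⟩ := centreG hT (ε := ε / 4) (by positivity)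
  obtain ⟨C, hC, hup⟩ := grid_upper hT
  obtain ⟨v0, hp⟩ := eventually_atTop.mp hp
  choose! r hr using hp
  -- parameters
  set g : ℕ → ℕ := fun v => v - ⌊ε / 4 * (v : ℝ)⌋₊ with hg
  set hh : ℕ → ℕ := fun v => ⌈(1 - ε) / 2 * (v : ℝ)⌉₊ with hhd
  set ww : ℕ → ℕ := fun v => ⌊ε / 4 * (v : ℝ)⌋₊ with hwd
  obtain ⟨V, hV⟩ := exists_nat_ge (16 / ε + 4)
  have hroom : ∀ v : ℕ, V ≤ v → 2 * hh v + ww v < g v ∧ ww v ≤ v := by
    intro v hv
    have hvr : 16 / ε + 4 ≤ (v : ℝ) := le_trans hV (by exact_mod_cast hv)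
    have hv0 : (0 : ℝ) < v := by
      have : 0 < 16 / ε := by positivity
      linarith
    have hεv : 16 ≤ ε * v := by
      have h3 : 16 / ε ≤ v := by linarith
      rw [div_le_iff₀ hε] at h3
      linarith
    have h1 : (ww v : ℝ) ≤ ε / 4 * v := Nat.floor_le (by positivity)
    have h2 : (hh v : ℝ) < (1 - ε) / 2 * v + 1 :=
      Nat.ceil_lt_add_one (mul_nonneg (by linarith) hv0.le)
    have h3 : ww v ≤ v := by
      have h10 : (ww v : ℝ) ≤ v := by nlinarith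
      exact_mod_cast h10
    refine ⟨?_, h3⟩
    have h4 : ((g v : ℕ) : ℝ) = v - ww v := by
      simp only [hg]
      rw [Nat.cast_sub h3]
    have h5 : ((2 * hh v + ww v : ℕ) : ℝ) < ((g v : ℕ) : ℝ) := by
      rw [h4]
      push_cast
      nlinarith
    exact_mod_cast h5
  -- choose the centres
  set P : ℕ → ℕ → ℕ → Prop := fun v i c =>
    r v + i * v + hh v < c ∧ c + hh v < r v + i * v + g v ∧
      κ₂ * lam hT v / v ≤ μ.real (A c) with hPd
  obtain ⟨ch, hch⟩ : ∃ ch : ℕ → ℕ → ℕ, ∀ v i, (∃ c, P v i c) → P v i (ch v i) := by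
    refine ⟨fun v i => if h : ∃ c, P v i c then h.choose else 0, fun v i h => ?_⟩
    simp only [dif_pos h]
    exact h.choose_spec
  have hgood : ∀ᶠ v : ℕ in atTop, ∀ i ∈ JJ (gx hT v) v (r v), P v i (ch v i) := by
    filter_upwards [hcen, eventually_ge_atTop V] with v h1 h2 i hi
    apply hch
    obtain ⟨h3, h4⟩ := hroom v h2
    have hi2 := (Finset.mem_filter.mp hi).2
    have hgv : g v ≤ v := Nat.sub_le _ _
    obtain ⟨c, hc, hqc⟩ := h1 (r v + i * v + hh v) (ww v) (by omega)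
      (by have := Nat.lt_floor_add_one (ε / 4 * (v : ℝ)); simp only [hwd]; linarith) h4
    have hc' := Finset.mem_Ioc.mp hc
    exact ⟨c, hc'.1, by omega, hqc⟩
  set Cs : ℕ → Set ℕ := fun v => {c | ∃ i ∈ JJ (gx hT v) v (r v), c = ch v i} with hCs
  set I : ℕ → ℕ → Finset ℕ := fun v i => Finset.Ioc (r v + i * v) (r v + i * v + g v) with hI
  have hIdis : ∀ v i k, i ≠ k → Disjoint (I v i) (I v k) := fun v i k hik =>
    JJ_disjoint (Nat.sub_le _ _) hik
  have hmem : ∀ v i, P v i (ch v i) → ch v i ∈ I v i := by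
    intro v i h
    refine Finset.mem_Ioc.mpr ⟨?_, ?_⟩
    · have := h.1; omega
    · have := h.2.1; omega
  have huniq : ∀ v, (∀ i ∈ JJ (gx hT v) v (r v), P v i (ch v i)) → ∀ i ∈ JJ (gx hT v) v (r v),
      ∀ n ∈ I v i, n ∈ Cs v → n = ch v i := by
    intro v hv i hi n hn hnC
    obtain ⟨i', hi', hn'⟩ := hnC
    have h1 : n ∈ I v i' := by rw [hn']; exact hmem v i' (hv i' hi')
    by_cases h : i = i'
    · subst h; exact hn'
    · exact absurd h1 (Finset.disjoint_left.mp (hIdis v i i' h) hn)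
  have h1 := hitJ hA hind Cs I (fun v => JJ (gx hT v) v (r v))
    (fun v i _ k _ hik => hIdis v i k hik) ?_
  · filter_upwards [h1] with ω hω
    filter_upwards [hω, hgood] with v hv hgd
    obtain ⟨i, hi, hωi⟩ := hv
    have hPi := hgd i hi
    have hmb := mem_blk.mp hωi
    have h2 := hPi.1
    have h3 := hPi.2.1
    have hi2 := (Finset.mem_filter.mp hi).2
    have hgv : g v ≤ v := Nat.sub_le _ _
    refine ⟨ch v i, hh v, ?_, ?_, Nat.le_ceil _, ?_, ?_⟩
    · omega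
    · omega
    · exact (hmb _ (hmem v i hPi)).mpr ⟨i, hi, rfl⟩
    · intro m hm1 hm2 hmA
      have hm : m ∈ I v i := Finset.mem_Ioc.mpr ⟨by omega, by omega⟩
      exact huniq v hgd i hi m hm ((hmb m hm).mp hmA)
  · have hE := (isLittleO_pow_exp_pos_mul_atTop 7 hκ).bound (c := 1) one_pos
    have hE' := (lam_top hT).eventually hE
    have hl2 : Tendsto (fun v => lam hT v ^ 2) atTop atTop :=
      (tendsto_pow_atTop two_ne_zero).comp (lam_top hT)
    filter_upwards [eventually_ge_atTop v0, hE', hup, eventually_ge_atTop 1,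
      (lam_top hT).eventually_gt_atTop 0, hl2.eventually_ge_atTop (2 * C ^ 3 / κ₂), hgood]
      with v h2 h3 h4 h5 hl0 h6 hgd
    have hvr : (0 : ℝ) < v := by exact_mod_cast h5
    rw [one_mul, Real.norm_eq_abs, Real.norm_eq_abs, abs_of_nonneg (by positivity),
      abs_of_nonneg (Real.exp_pos _).le] at h3
    have h7 : ∑ i ∈ JJ (gx hT v) v (r v),
        κ₂ * lam hT v / v * pp (fun n => μ.real (A n)) (r v + i * v) (g v) ≤
        ∑ i ∈ JJ (gx hT v) v (r v), μ.real (blk A (Cs v) (I v i)) := by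
      refine Finset.sum_le_sum (fun i hi => ?_)
      have hPi := hgd i hi
      have hcI := hmem v i hPi
      rw [blk_meas hind, ← Finset.mul_prod_erase (I v i) _ hcI, 
        pat_of_mem (show ch v i ∈ Cs v from ⟨i, hi, rfl⟩)]
      refine mul_le_mul hPi.2.2 ?_ (pp_nonneg hT _ _) measureReal_nonneg
      have h8 : ∏ n ∈ (I v i).erase (ch v i), μ.real (pat A (Cs v) n) =
          ∏ n ∈ (I v i).erase (ch v i), (1 - μ.real (A n)) := by
        refine Finset.prod_congr rfl (fun n hn => ?_)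
        have hne : n ∉ Cs v := fun h => (Finset.ne_of_mem_erase hn)
          (huniq v hgd i hi n (Finset.mem_of_mem_erase hn) h)
        rw [pat_of_notMem hne, measureReal_compl (hA n)]
        simp
      rw [h8]
      unfold pp
      show ∏ n ∈ I v i, (1 - μ.real (A n)) ≤ _
      rw [← Finset.mul_prod_erase (I v i) _ hcI]
      refine mul_le_of_le_one_left ?_ ?_
      · exact Finset.prod_nonneg (fun n _ => by have := hq1 n; linarith)
      · have : 0 ≤ μ.real (A (ch v i)) := measureReal_nonneg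
        linarith
    refine le_trans ?_ h7
    rw [← Finset.mul_sum]
    have h8 := hr v h2
    have h9 : κ₂ * lam hT v / v * (Real.exp (κ * lam hT v) / (2 * v)) ≤
        κ₂ * lam hT v / v * ∑ i ∈ JJ (gx hT v) v (r v),
          pp (fun n => μ.real (A n)) (r v + i * v) (g v) :=
      mul_le_mul_of_nonneg_left h8 (by positivity)
    refine le_trans ?_ h9
    have h10 : κ₂ * lam hT v / v * (Real.exp (κ * lam hT v) / (2 * v)) =
        κ₂ * lam hT v * Real.exp (κ * lam hT v) / (2 * (v : ℝ) ^ 2) := by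
      field_simp
    rw [h10, le_div_iff₀ (by positivity)]
    have h11 : (v : ℝ) ^ 3 ≤ (C * lam hT v ^ 2) ^ 3 := pow_le_pow_left₀ hvr.le h4 3
    rw [div_le_iff₀ hκ₂] at h6
    have h12 : 0 ≤ lam hT v ^ 6 := by positivity
    calc (v : ℝ) * (2 * (v : ℝ) ^ 2) = 2 * (v : ℝ) ^ 3 := by ring
      _ ≤ 2 * (C * lam hT v ^ 2) ^ 3 := by linarith
      _ = (2 * C ^ 3) * lam hT v ^ 6 := by ring
      _ ≤ (lam hT v ^ 2 * κ₂) * lam hT v ^ 6 := mul_le_mul_of_nonneg_right h6 h12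
      _ = κ₂ * lam hT v * lam hT v ^ 7 := by ring
      _ ≤ κ₂ * lam hT v * Real.exp (κ * lam hT v) :=
          mul_le_mul_of_nonneg_left h3 (by positivity)

/-- The general theorem: two-sided local density on the scale `log² n`. -/
theorem generalG (hA : ∀ n, MeasurableSet (A n)) (hind : iIndepSet A μ)
    (hT : TwoSided (fun n => μ.real (A n)) c₁ c₂) :
    ∀ᵐ ω ∂μ, Tendsto (quo (Nat.nth (fun m => ω ∈ A m))) atTop (𝓝 (1 / 4)) := by
  obtain ⟨n1, hn1⟩ := eventually_atTop.mp hT.half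
  have hU : ∀ᵐ ω ∂μ, ∀ k : ℕ, ∀ᶠ v : ℕ in atTop, ∀ a h : ℕ, n1 ≤ a →
      (1 + 1 / ((k : ℝ) + 1)) * v ≤ h → a + h < gx hT v →
      ∃ s t : ℕ, a < s ∧ s < t ∧ t ≤ a + h ∧ ω ∈ A s ∧ ω ∈ A t := by
    rw [ae_all_iff]
    intro k
    exact denseG_ae hA hind hT hn1 (by positivity)
  have hlt : ∀ k : ℕ, 1 / ((k : ℝ) + 2) < 1 := by
    intro k
    rw [div_lt_one (by positivity)]
    have : (0 : ℝ) ≤ k := Nat.cast_nonneg k
    linarith
  have hE : ∀ᵐ ω ∂μ, ∀ k : ℕ, ∀ᶠ v : ℕ in atTop, ∃ b h : ℕ, v ≤ b ∧ b + h ≤ gx hT v ∧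
      (1 - 1 / ((k : ℝ) + 2)) * v ≤ h ∧ ∀ m, b < m → m ≤ b + h → ¬ ω ∈ A m := by
    rw [ae_all_iff]
    intro k
    exact emptG_ae hA hind hT (by positivity) (hlt k)
  have hC : ∀ᵐ ω ∂μ, ∀ k : ℕ, ∀ᶠ v : ℕ in atTop, ∃ c h : ℕ, v + h ≤ c ∧ c + h < gx hT v ∧
      (1 - 1 / ((k : ℝ) + 2)) / 2 * v ≤ h ∧ ω ∈ A c ∧
      ∀ m, c ≤ m + h → m ≤ c + h → ω ∈ A m → m = c := by
    rw [ae_all_iff]
    intro k
    exact centG_ae hA hind hT (by positivity) (hlt k)
  have hsm : ∀ k : ℕ, 1 / ((k : ℝ) + 2) ≤ 1 / ((k : ℝ) + 1) := fun k =>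
    one_div_le_one_div_of_le (by positivity) (by linarith)
  filter_upwards [hU, hE, hC] with ω h1 h2 h3
  refine quo_tendstoG (gx_grid hT) (n1 := n1) ?_ ?_ ?_
  · intro ε hε
    obtain ⟨k, hk⟩ := exists_nat_one_div_lt hε
    filter_upwards [h1 k] with v hv a h ha hh hah
    refine hv a h ha (le_trans ?_ hh) hah
    have : (0 : ℝ) ≤ v := Nat.cast_nonneg v
    nlinarith
  · intro ε hε
    obtain ⟨k, hk⟩ := exists_nat_one_div_lt hε
    filter_upwards [h2 k] with v hv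
    obtain ⟨b, h, h4, h5, h6, h7⟩ := hv
    refine ⟨b, h, h4, h5, le_trans ?_ h6, h7⟩
    have h8 : (0 : ℝ) ≤ v := Nat.cast_nonneg v
    have h9 := hsm k
    nlinarith
  · intro ε hε
    obtain ⟨k, hk⟩ := exists_nat_one_div_lt hε
    filter_upwards [h3 k] with v hv
    obtain ⟨c, h, h4, h5, h6, h7, h8⟩ := hv
    refine ⟨c, h, h4, h5, le_trans ?_ h6, h7, h8⟩
    have h9 : (0 : ℝ) ≤ v := Nat.cast_nonneg v
    have h10 := hsm k
    nlinarith

end

end Pool.Agent.CRM31
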