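import Mathlib

set_option autoImplicit false

open Filter Topology

namespace Pool.Agent.CRM31

/-- The quotient of the problem, formed with the sequence `p` in place of the primes: the largest
product of two consecutive differences over the square of the largest difference. -/
noncomputable def quo (p : ℕ → ℕ) (N : ℕ) : ℝ :=
  (((Finset.Ico 1 N).sup (fun n => (p (n + 1) - p n) * (p n - p (n - 1))) : ℕ) : ℝ) /
    ((((Finset.range N).sup (fun n => p (n + 1) - p n) : ℕ) : ℝ)) ^ 2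

/-- Two elements of `S` in every late interval of length `(1 + ε) log² n`. -/
def Dense (S : ℕ → Prop) : Prop := ∀ ε : ℝ, 0 < ε → ∀ᶠ n : ℕ in atTop, ∃ a b : ℕ,
  n < a ∧ a < b ∧ (b : ℝ) ≤ n + (1 + ε) * (Real.log n) ^ 2 ∧ S a ∧ S b

/-- An empty block of length `(1 - ε) log² 2^j` in `(2^j, 2^(j+1)]`. -/
def Empt (S : ℕ → Prop) : Prop := ∀ ε : ℝ, 0 < ε → ∀ᶠ j : ℕ in atTop, ∃ b h : ℕ,
  2 ^ j ≤ b ∧ b + h ≤ 2 ^ (j + 1) ∧ (1 - ε) * (j * Real.log 2) ^ 2 ≤ h ∧
    ∀ m, b < m → m ≤ b + h → ¬ S m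

/-- A block with a single element, in its centre. -/
def Cent (S : ℕ → Prop) : Prop := ∀ ε : ℝ, 0 < ε → ∀ᶠ j : ℕ in atTop, ∃ c h : ℕ,
  2 ^ j + h ≤ c ∧ c + h < 2 ^ (j + 1) ∧ (1 - ε) / 2 * (j * Real.log 2) ^ 2 ≤ h ∧ S c ∧
    ∀ m, c ≤ m + h → m ≤ c + h → S m → m = c

lemma Dense.infinite {S : ℕ → Prop} (hU : Dense S) : (Set.ofPred S).Infinite := by
  obtain ⟨n0, h0⟩ := eventually_atTop.mp (hU 1 one_pos)
  refine Set.infinite_of_not_bddAbove ?_
  rintro ⟨B, hB⟩
  obtain ⟨a, b, hna, hab, -, hSa, -⟩ := h0 (max n0 B) (le_max_left _ _)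
  have h1 : a ≤ B := hB hSa
  have h2 : B ≤ max n0 B := le_max_right _ _
  omega

section
variable {S : ℕ → Prop} (hinf : (Set.ofPred S).Infinite)
include hinf

lemma nth_succ_le {k a : ℕ} (ha : S a) (hk : Nat.nth S k < a) : Nat.nth S (k + 1) ≤ a := by
  classical
  obtain ⟨i, hi⟩ : ∃ i, Nat.nth S i = a := by
    have : a ∈ Set.range (Nat.nth S) := by rw [Nat.range_nth_of_infinite hinf]; exact ha
    exact this
  rw [← hi] at hk ⊢
  exact (Nat.nth_le_nth hinf).mpr ((Nat.nth_lt_nth hinf).mp hk)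

lemma exists_straddle {b : ℕ} (h0 : Nat.nth S 0 ≤ b) :
    ∃ k, Nat.nth S k ≤ b ∧ b < Nat.nth S (k + 1) := by
  have hm := Nat.nth_strictMono hinf
  have hex : ∃ k, b < Nat.nth S k := ⟨b + 1, lt_of_lt_of_le (Nat.lt_succ_self b) (hm.id_le _)⟩
  classical
  have h1 := Nat.find_spec hex
  have h2 : Nat.find hex ≠ 0 := by
    intro h
    rw [h] at h1
    omega
  obtain ⟨k, hk⟩ := Nat.exists_eq_succ_of_ne_zero h2
  refine ⟨k, ?_, ?_⟩
  · have := Nat.find_min hex (m := k) (by omega)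
    omega
  · rw [hk] at h1; exact h1

lemma nth_tendsto : Tendsto (Nat.nth S) atTop atTop :=
  (Nat.nth_strictMono hinf).tendsto_atTop

end

/-- `log² p_N` tends to infinity. -/
lemma ell_tendsto {S : ℕ → Prop} (hinf : (Set.ofPred S).Infinite) :
    Tendsto (fun N : ℕ => (Real.log (Nat.nth S N)) ^ 2) atTop atTop := by
  have h1 : Tendsto (fun N : ℕ => Real.log (Nat.nth S N)) atTop atTop :=
    Real.tendsto_log_atTop.comp (tendsto_natCast_atTop_atTop.comp (nth_tendsto hinf))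
  exact (tendsto_pow_atTop (two_ne_zero)).comp h1

/-- Every late pair of consecutive gaps has sum at most `(1 + ε) log² p_k`. -/
lemma two_gaps {S : ℕ → Prop} (hU : Dense S) {ε : ℝ} (hε : 0 < ε) :
    ∀ᶠ k : ℕ in atTop, ((Nat.nth S (k + 2) : ℕ) : ℝ) ≤
      (Nat.nth S k : ℕ) + (1 + ε) * (Real.log (Nat.nth S k)) ^ 2 := by
  have hinf := hU.infinite
  filter_upwards [(nth_tendsto hinf).eventually (hU ε hε)] with k hk
  obtain ⟨a, b, hna, hab, hb, hSa, hSb⟩ := hk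
  have h1 : Nat.nth S (k + 1) ≤ a := nth_succ_le hinf hSa hna
  have h2 : Nat.nth S (k + 2) ≤ b := nth_succ_le hinf hSb (lt_of_le_of_lt h1 hab)
  have h3 : ((Nat.nth S (k + 2) : ℕ) : ℝ) ≤ b := by exact_mod_cast h2
  linarith

/-- A maximum over an initial segment of values eventually bounded by `C * ell` is eventually bounded by
`(C + ε) * ell`, for a monotone function `ell` tending to infinity. -/
lemma sup_le_of_eventually (f : ℕ → ℕ) (ell : ℕ → ℝ) (hmono : Monotone ell)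
    (htop : Tendsto ell atTop atTop) (C : ℝ) (hC : 0 ≤ C)
    (hf : ∀ᶠ k : ℕ in atTop, (f k : ℝ) ≤ C * ell k) (s : ℕ → Finset ℕ)
    (hs : ∀ N, ∀ k ∈ s N, k < N) {ε : ℝ} (hε : 0 < ε) :
    ∀ᶠ N : ℕ in atTop, (((s N).sup f : ℕ) : ℝ) ≤ (C + ε) * ell N := by
  obtain ⟨k0, hk0⟩ := eventually_atTop.mp hf
  set B : ℕ := (Finset.range k0).sup f with hB
  have h1 : ∀ᶠ N : ℕ in atTop, (B : ℝ) ≤ ε * ell N := by
    have : Tendsto (fun N => ε * ell N) atTop atTop := htop.const_mul_atTop hε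
    exact this.eventually_ge_atTop _
  filter_upwards [h1, htop.eventually_ge_atTop 0] with N hN h0
  have hall : ∀ k ∈ s N, (f k : ℝ) ≤ (C + ε) * ell N := by
    intro k hk
    rcases lt_or_ge k k0 with h | h
    · have h2 : f k ≤ B := Finset.le_sup (f := f) (Finset.mem_range.mpr h)
      have h3 : (f k : ℝ) ≤ B := by exact_mod_cast h2
      nlinarith
    · have h2 := hk0 k h
      have h3 : ell k ≤ ell N := hmono (le_of_lt (hs N k hk))
      nlinarith
  have hnn : 0 ≤ (C + ε) * ell N := by positivity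
  have : (s N).sup f ≤ ⌊(C + ε) * ell N⌋₊ := by
    refine Finset.sup_le (fun k hk => ?_)
    exact Nat.le_floor (hall k hk)
  calc (((s N).sup f : ℕ) : ℝ) ≤ (⌊(C + ε) * ell N⌋₊ : ℕ) := by exact_mod_cast this
    _ ≤ _ := Nat.floor_le hnn

end Pool.Agent.CRM31
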