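import Pool.Agent.CRM31.Det

set_option autoImplicit false

open Filter Topology

namespace Pool.Agent.CRM31

lemma log_sq_mono : Monotone (fun n : ℕ => (Real.log (n : ℝ)) ^ 2) := by
  intro a b hab
  show (Real.log (a : ℝ)) ^ 2 ≤ (Real.log (b : ℝ)) ^ 2
  rcases Nat.eq_zero_or_pos a with h | h
  · subst h; simp; positivity
  · have h1 : Real.log (a : ℝ) ≤ Real.log b :=
      Real.log_le_log (by exact_mod_cast h) (by exact_mod_cast hab)
    have h2 : 0 ≤ Real.log (a : ℝ) := Real.log_natCast_nonneg a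
    exact pow_le_pow_left₀ h2 h1 2

/-- The quantity `log² p_N`. -/
noncomputable def ell (S : ℕ → Prop) (N : ℕ) : ℝ := (Real.log (Nat.nth S N)) ^ 2

lemma ell_mono {S : ℕ → Prop} (hinf : (Set.ofPred S).Infinite) : Monotone (ell S) := by
  intro a b hab
  exact log_sq_mono ((Nat.nth_le_nth hinf).mpr hab)

lemma ell_top {S : ℕ → Prop} (hinf : (Set.ofPred S).Infinite) : Tendsto (ell S) atTop atTop :=
  ell_tendsto hinf

lemma ell_nonneg (S : ℕ → Prop) (N : ℕ) : 0 ≤ ell S N := by unfold ell; positivity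

/-- The dyadic scale of `p_N`. -/
noncomputable def jN (S : ℕ → Prop) (N : ℕ) : ℕ := Nat.log 2 (Nat.nth S N) - 1

lemma jN_tendsto {S : ℕ → Prop} (hinf : (Set.ofPred S).Infinite) :
    Tendsto (jN S) atTop atTop := by
  refine tendsto_atTop.mpr (fun b => ?_)
  filter_upwards [(nth_tendsto hinf).eventually_ge_atTop (2 ^ (b + 1))] with N hN
  have h1 : b + 1 ≤ Nat.log 2 (Nat.nth S N) :=
    Nat.le_log_of_pow_le (by norm_num) hN
  unfold jN
  omega

lemma jN_spec {S : ℕ → Prop} (hinf : (Set.ofPred S).Infinite) :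
    ∀ᶠ N : ℕ in atTop, 2 ^ (jN S N + 1) ≤ Nat.nth S N ∧ Nat.nth S N < 2 ^ (jN S N + 2) := by
  filter_upwards [(nth_tendsto hinf).eventually_ge_atTop 2] with N hN
  have h1 : 1 ≤ Nat.log 2 (Nat.nth S N) := Nat.le_log_of_pow_le (by norm_num) (by simpa using hN)
  have h2 : jN S N + 1 = Nat.log 2 (Nat.nth S N) := by unfold jN; omega
  constructor
  · rw [h2]
    exact Nat.pow_log_le_self 2 (by omega)
  · have h3 : jN S N + 2 = (Nat.log 2 (Nat.nth S N)).succ := by omega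
    rw [h3]
    exact Nat.lt_pow_succ_log_self (by norm_num) _

lemma shift_bound {ε : ℝ} (hε : 0 < ε) :
    ∀ᶠ j : ℕ in atTop, (1 - ε) * ((j : ℝ) + 2) ^ 2 ≤ (1 - ε / 2) * (j : ℝ) ^ 2 := by
  obtain ⟨K, hK⟩ := exists_nat_ge (16 / ε)
  filter_upwards [eventually_ge_atTop (K + 1)] with j hj
  have h1 : (K : ℝ) + 1 ≤ j := by exact_mod_cast hj
  have h2 : 16 / ε ≤ j := by linarith
  have h3 : 16 ≤ ε * j := by
    rw [div_le_iff₀ hε] at h2; linarith
  have hj1 : (1 : ℝ) ≤ j := by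
    have : (0 : ℝ) ≤ K := Nat.cast_nonneg K
    linarith
  have h4 : 16 * (j : ℝ) ≤ ε * j * j := by nlinarith
  nlinarith

lemma ell_le_scale {S : ℕ → Prop} (hinf : (Set.ofPred S).Infinite) {ε : ℝ} (hε : 0 < ε)
    (hε1 : ε ≤ 1) :
    ∀ᶠ N : ℕ in atTop, (1 - ε) * ell S N ≤ (1 - ε / 2) * ((jN S N : ℝ) * Real.log 2) ^ 2 := by
  filter_upwards [(jN_tendsto hinf).eventually (shift_bound hε), jN_spec hinf,
    (nth_tendsto hinf).eventually_ge_atTop 2] with N h1 h2 h3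
  have hl2 : 0 < Real.log 2 := Real.log_pos (by norm_num)
  have h4 : Real.log (Nat.nth S N) ≤ ((jN S N : ℝ) + 2) * Real.log 2 := by
    have h5 : ((Nat.nth S N : ℕ) : ℝ) ≤ 2 ^ (jN S N + 2) := by exact_mod_cast h2.2.le
    have h6 : Real.log (Nat.nth S N) ≤ Real.log ((2 : ℝ) ^ (jN S N + 2)) :=
      Real.log_le_log (by exact_mod_cast (by omega : 0 < Nat.nth S N)) h5
    rw [Real.log_pow] at h6
    push_cast at h6
    exact h6
  have h0 : 0 ≤ Real.log (Nat.nth S N : ℝ) := Real.log_natCast_nonneg _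
  have h7 : ell S N ≤ (((jN S N : ℝ) + 2) * Real.log 2) ^ 2 := pow_le_pow_left₀ h0 h4 2
  have h8 : (1 - ε) * ell S N ≤ (1 - ε) * (((jN S N : ℝ) + 2) * Real.log 2) ^ 2 :=
    mul_le_mul_of_nonneg_left h7 (by linarith)
  have h9 : 0 < Real.log 2 ^ 2 := by positivity
  calc (1 - ε) * ell S N ≤ (1 - ε) * (((jN S N : ℝ) + 2) * Real.log 2) ^ 2 := h8
    _ = ((1 - ε) * ((jN S N : ℝ) + 2) ^ 2) * Real.log 2 ^ 2 := by ring
    _ ≤ ((1 - ε / 2) * (jN S N : ℝ) ^ 2) * Real.log 2 ^ 2 :=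
        mul_le_mul_of_nonneg_right h1 h9.le
    _ = _ := by ring

/-- The largest difference. -/
noncomputable def big (p : ℕ → ℕ) (N : ℕ) : ℕ := (Finset.range N).sup (fun n => p (n + 1) - p n)

/-- The largest product of two consecutive differences. -/
noncomputable def prd (p : ℕ → ℕ) (N : ℕ) : ℕ :=
  (Finset.Ico 1 N).sup (fun n => (p (n + 1) - p n) * (p n - p (n - 1)))

lemma big_upper {S : ℕ → Prop} (hU : Dense S) {ε : ℝ} (hε : 0 < ε) :
    ∀ᶠ N : ℕ in atTop, (big (Nat.nth S) N : ℝ) ≤ (1 + ε) * ell S N := by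
  have hinf := hU.infinite
  have h := sup_le_of_eventually (fun n => Nat.nth S (n + 1) - Nat.nth S n) (ell S) (ell_mono hinf)
    (ell_top hinf) (1 + ε / 2) (by linarith) ?_ (fun N => Finset.range N)
    (fun N k hk => Finset.mem_range.mp hk) (ε := ε / 2) (by linarith)
  · filter_upwards [h] with N hN
    have : (1 + ε / 2 + ε / 2) = 1 + ε := by ring
    rw [this] at hN
    exact hN
  · filter_upwards [two_gaps hU (ε := ε / 2) (by linarith)] with k hk
    have h1 : Nat.nth S k ≤ Nat.nth S (k + 1) := (Nat.nth_le_nth hinf).mpr (by omega)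
    have h2 : Nat.nth S (k + 1) ≤ Nat.nth S (k + 2) := (Nat.nth_le_nth hinf).mpr (by omega)
    have h3 : ((Nat.nth S (k + 1) : ℕ) : ℝ) ≤ (Nat.nth S (k + 2) : ℕ) := by exact_mod_cast h2
    rw [Nat.cast_sub h1]
    show _ ≤ (1 + ε / 2) * (Real.log (Nat.nth S k)) ^ 2
    linarith

lemma prd_upper {S : ℕ → Prop} (hU : Dense S) {ε : ℝ} (hε : 0 < ε) :
    ∀ᶠ N : ℕ in atTop, (prd (Nat.nth S) N : ℝ) ≤ (1 / 4 + ε) * ell S N ^ 2 := by
  have hinf := hU.infinite
  set δ : ℝ := min 1 (ε / 2) with hδ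
  have hδ0 : 0 < δ := lt_min one_pos (by linarith)
  have hδ1 : δ ≤ 1 := min_le_left _ _
  have hδ2 : δ ≤ ε / 2 := min_le_right _ _
  have hsqmono : Monotone (fun N => ell S N ^ 2) := by
    intro a b hab
    exact pow_le_pow_left₀ (ell_nonneg S a) (ell_mono hinf hab) 2
  have hsqtop : Tendsto (fun N => ell S N ^ 2) atTop atTop :=
    (tendsto_pow_atTop two_ne_zero).comp (ell_top hinf)
  have h := sup_le_of_eventually
    (fun n => (Nat.nth S (n + 1) - Nat.nth S n) * (Nat.nth S n - Nat.nth S (n - 1)))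
    (fun N => ell S N ^ 2) hsqmono hsqtop (1 / 4 + ε / 2) (by linarith) ?_
    (fun N => Finset.Ico 1 N) (fun N k hk => (Finset.mem_Ico.mp hk).2) (ε := ε / 2) (by linarith)
  · filter_upwards [h] with N hN
    have : (1 / 4 + ε / 2 + ε / 2) = 1 / 4 + ε := by ring
    rw [this] at hN
    exact hN
  · obtain ⟨k0, hk0⟩ := eventually_atTop.mp (two_gaps hU hδ0)
    filter_upwards [eventually_ge_atTop (k0 + 1)] with k hk
    obtain ⟨i, rfl⟩ : ∃ i, k = i + 1 := ⟨k - 1, by omega⟩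
    have hi := hk0 i (by omega)
    have h1 : Nat.nth S i ≤ Nat.nth S (i + 1) := (Nat.nth_le_nth hinf).mpr (by omega)
    have h2 : Nat.nth S (i + 1) ≤ Nat.nth S (i + 2) := (Nat.nth_le_nth hinf).mpr (by omega)
    show (((Nat.nth S (i + 1 + 1) - Nat.nth S (i + 1)) * (Nat.nth S (i + 1) -
      Nat.nth S (i + 1 - 1)) : ℕ) : ℝ) ≤ _
    rw [Nat.add_sub_cancel, Nat.cast_mul, Nat.cast_sub h1, Nat.cast_sub h2]
    have hxy : ((Nat.nth S i : ℕ) : ℝ) ≤ ((Nat.nth S (i + 1) : ℕ) : ℝ) := by exact_mod_cast h1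
    have hyz : ((Nat.nth S (i + 1) : ℕ) : ℝ) ≤ ((Nat.nth S (i + 2) : ℕ) : ℝ) := by
      exact_mod_cast h2
    set x : ℝ := ((Nat.nth S i : ℕ) : ℝ)
    set y : ℝ := ((Nat.nth S (i + 1) : ℕ) : ℝ)
    set z : ℝ := ((Nat.nth S (i + 2) : ℕ) : ℝ)
    have hzx : z - x ≤ (1 + δ) * ell S i := by
      show z - x ≤ (1 + δ) * (Real.log (Nat.nth S i)) ^ 2
      linarith
    have hle : ell S i ≤ ell S (i + 1) := ell_mono hinf (by omega)
    have h0 := ell_nonneg S i
    have h3 : z - x ≤ (1 + δ) * ell S (i + 1) := by nlinarith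
    have h4 : (z - y) * (y - x) ≤ (z - x) ^ 2 / 4 := by nlinarith [sq_nonneg (z - y - (y - x))]
    have h5 : (z - x) ^ 2 ≤ ((1 + δ) * ell S (i + 1)) ^ 2 :=
      pow_le_pow_left₀ (by linarith) h3 2
    have h6 : (1 + δ) ^ 2 / 4 ≤ 1 / 4 + ε / 2 := by nlinarith
    have h7 : 0 ≤ ell S (i + 1) ^ 2 := by positivity
    calc (z - y) * (y - x) ≤ (z - x) ^ 2 / 4 := h4
      _ ≤ ((1 + δ) * ell S (i + 1)) ^ 2 / 4 := by linarith
      _ = (1 + δ) ^ 2 / 4 * ell S (i + 1) ^ 2 := by ring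
      _ ≤ (1 / 4 + ε / 2) * ell S (i + 1) ^ 2 := mul_le_mul_of_nonneg_right h6 h7

lemma big_lower {S : ℕ → Prop} (hU : Dense S) (hE : Empt S) {ε : ℝ} (hε : 0 < ε)
    (hε1 : ε ≤ 1) :
    ∀ᶠ N : ℕ in atTop, (1 - ε) * ell S N ≤ (big (Nat.nth S) N : ℝ) := by
  have hinf := hU.infinite
  filter_upwards [ell_le_scale hinf hε hε1, jN_spec hinf,
    (jN_tendsto hinf).eventually (hE (ε / 2) (by linarith)),
    (jN_tendsto hinf).eventually_ge_atTop (Nat.nth S 0)] with N h1 h2 h3 h4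
  obtain ⟨b, h, hb, hbh, hh, hno⟩ := h3
  have hb0 : Nat.nth S 0 ≤ b :=
    le_trans (le_trans h4 (Nat.lt_two_pow_self).le) hb
  obtain ⟨k, hk1, hk2⟩ := exists_straddle hinf hb0
  have hk3 : b + h < Nat.nth S (k + 1) := by
    by_contra hcon
    exact hno _ hk2 (not_lt.mp hcon) (Nat.nth_mem_of_infinite hinf _)
  have hgap : h ≤ Nat.nth S (k + 1) - Nat.nth S k := by omega
  rcases Nat.eq_zero_or_pos h with hz | hpos
  · subst hz
    have hh' : (1 - ε / 2) * ((jN S N : ℝ) * Real.log 2) ^ 2 ≤ 0 := by simpa using hh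
    have : (0 : ℝ) ≤ (big (Nat.nth S) N : ℝ) := Nat.cast_nonneg _
    linarith
  · have hkN : k < N := by
      have : Nat.nth S k < Nat.nth S N := by omega
      exact (Nat.nth_lt_nth hinf).mp this
    have h5 : Nat.nth S (k + 1) - Nat.nth S k ≤ big (Nat.nth S) N :=
      Finset.le_sup (f := fun n => Nat.nth S (n + 1) - Nat.nth S n) (Finset.mem_range.mpr hkN)
    have h6 : (h : ℝ) ≤ (big (Nat.nth S) N : ℝ) := by exact_mod_cast le_trans hgap h5
    linarith

lemma prd_lower {S : ℕ → Prop} (hU : Dense S) (hC : Cent S) {ε : ℝ} (hε : 0 < ε) :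
    ∀ᶠ N : ℕ in atTop, (1 / 4 - ε) * ell S N ^ 2 ≤ (prd (Nat.nth S) N : ℝ) := by
  have hinf := hU.infinite
  set δ : ℝ := min 1 (2 * ε) with hδ
  have hδ0 : 0 < δ := lt_min one_pos (by linarith)
  have hδ1 : δ ≤ 1 := min_le_left _ _
  have hδ2 : δ ≤ 2 * ε := min_le_right _ _
  filter_upwards [ell_le_scale hinf hδ0 hδ1, jN_spec hinf,
    (jN_tendsto hinf).eventually (hC (δ / 2) (by linarith)),
    (jN_tendsto hinf).eventually_ge_atTop (Nat.nth S 0)] with N h1 h2 h3 h4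
  obtain ⟨c, h, hc, hch, hh, hSc, hno⟩ := h3
  have hc0 : Nat.nth S 0 < c := by
    have : Nat.nth S 0 < 2 ^ (jN S N) := lt_of_le_of_lt h4 (Nat.lt_two_pow_self)
    omega
  -- `c` is `p_k` with `k ≥ 1`
  obtain ⟨k, hk⟩ : ∃ k, Nat.nth S k = c := by
    have : c ∈ Set.range (Nat.nth S) := by rw [Nat.range_nth_of_infinite hinf]; exact hSc
    exact this
  have hk1 : 1 ≤ k := by
    rcases Nat.eq_zero_or_pos k with h0 | h0
    · subst h0; omega
    · exact h0
  have hkN : k < N := by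
    have : Nat.nth S k < Nat.nth S N := by omega
    exact (Nat.nth_lt_nth hinf).mp this
  have hup : c + h < Nat.nth S (k + 1) := by
    by_contra hcon
    have h5 : Nat.nth S k < Nat.nth S (k + 1) := (Nat.nth_lt_nth hinf).mpr (by omega)
    have h6 := hno (Nat.nth S (k + 1)) (by omega) (not_lt.mp hcon)
      (Nat.nth_mem_of_infinite hinf _)
    omega
  have hdn : Nat.nth S (k - 1) + h < c := by
    by_contra hcon
    have h5 : Nat.nth S (k - 1) < Nat.nth S k := (Nat.nth_lt_nth hinf).mpr (by omega)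
    have h6 := hno (Nat.nth S (k - 1)) (by omega) (by omega)
      (Nat.nth_mem_of_infinite hinf _)
    omega
  have hprod : h * h ≤ (Nat.nth S (k + 1) - Nat.nth S k) * (Nat.nth S k - Nat.nth S (k - 1)) :=
    Nat.mul_le_mul (by omega) (by omega)
  have h5 : (Nat.nth S (k + 1) - Nat.nth S k) * (Nat.nth S k - Nat.nth S (k - 1)) ≤
      prd (Nat.nth S) N :=
    Finset.le_sup (f := fun n => (Nat.nth S (n + 1) - Nat.nth S n) *
      (Nat.nth S n - Nat.nth S (n - 1))) (Finset.mem_Ico.mpr ⟨hk1, hkN⟩)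
  have h6 : (h : ℝ) * h ≤ (prd (Nat.nth S) N : ℝ) := by exact_mod_cast le_trans hprod h5
  have h7 : (1 - δ) / 2 * ell S N ≤ h := by linarith
  have h8 : 0 ≤ (1 - δ) / 2 * ell S N :=
    mul_nonneg (by linarith) (ell_nonneg S N)
  have h9 : ((1 - δ) / 2 * ell S N) * ((1 - δ) / 2 * ell S N) ≤ (h : ℝ) * h :=
    mul_le_mul h7 h7 h8 (le_trans h8 h7)
  have h10 : 0 ≤ ell S N ^ 2 := by positivity
  have h11 : (1 / 4 - ε) ≤ (1 - δ) ^ 2 / 4 := by nlinarith
  calc (1 / 4 - ε) * ell S N ^ 2 ≤ (1 - δ) ^ 2 / 4 * ell S N ^ 2 :=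
        mul_le_mul_of_nonneg_right h11 h10
    _ = ((1 - δ) / 2 * ell S N) * ((1 - δ) / 2 * ell S N) := by ring
    _ ≤ _ := le_trans h9 h6

/-- The deterministic half: two elements in every late interval of length `(1 + ε) log² n`, an
empty block and a block with a single central element at every dyadic scale give the limit `1/4`. -/
theorem quo_tendsto {S : ℕ → Prop} (hU : Dense S) (hE : Empt S) (hC : Cent S) :
    Tendsto (quo (Nat.nth S)) atTop (𝓝 (1 / 4)) := by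
  have hinf := hU.infinite
  have hpos : ∀ᶠ N : ℕ in atTop, 0 < ell S N := (ell_top hinf).eventually_gt_atTop 0
  have hM : Tendsto (fun N => (big (Nat.nth S) N : ℝ) / ell S N) atTop (𝓝 1) := by
    rw [Metric.tendsto_nhds]
    intro ε hε
    set δ : ℝ := min 1 (ε / 2)
    have hδ0 : 0 < δ := lt_min one_pos (by linarith)
    have hδ1 : δ ≤ 1 := min_le_left _ _
    have hδ2 : δ ≤ ε / 2 := min_le_right _ _
    filter_upwards [hpos, big_upper hU hδ0, big_lower hU hE hδ0 hδ1] with N h0 h1 h2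
    rw [Real.dist_eq, abs_lt]
    constructor
    · have : 1 - δ ≤ (big (Nat.nth S) N : ℝ) / ell S N := (le_div_iff₀ h0).mpr h2
      linarith
    · have : (big (Nat.nth S) N : ℝ) / ell S N ≤ 1 + δ := (div_le_iff₀ h0).mpr h1
      linarith
  have hP : Tendsto (fun N => (prd (Nat.nth S) N : ℝ) / ell S N ^ 2) atTop (𝓝 (1 / 4)) := by
    rw [Metric.tendsto_nhds]
    intro ε hε
    filter_upwards [hpos, prd_upper hU (half_pos hε), prd_lower hU hC (half_pos hε)]
      with N h0 h1 h2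
    have h00 : 0 < ell S N ^ 2 := by positivity
    rw [Real.dist_eq, abs_lt]
    constructor
    · have : 1 / 4 - ε / 2 ≤ (prd (Nat.nth S) N : ℝ) / ell S N ^ 2 := (le_div_iff₀ h00).mpr h2
      linarith
    · have : (prd (Nat.nth S) N : ℝ) / ell S N ^ 2 ≤ 1 / 4 + ε / 2 := (div_le_iff₀ h00).mpr h1
      linarith
  have h := hP.div (hM.pow 2) (by norm_num)
  rw [show (1 / 4 : ℝ) / 1 ^ 2 = 1 / 4 by norm_num] at h
  refine h.congr' ?_
  filter_upwards [hpos] with N h0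
  show (prd (Nat.nth S) N : ℝ) / ell S N ^ 2 / ((big (Nat.nth S) N : ℝ) / ell S N) ^ 2 =
    (prd (Nat.nth S) N : ℝ) / (big (Nat.nth S) N : ℝ) ^ 2
  rw [div_pow, div_div_div_cancel_right₀ (by positivity)]

end Pool.Agent.CRM31
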