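import Pool.Agent.CRM31.Det
import Pool.Agent.CRM31.Lim

set_option autoImplicit false

open Filter Topology

namespace Pool.Agent.CRM31

/-- A grid: a monotone sequence with `v ≤ xs v`. -/
structure Grid (xs : ℕ → ℕ) : Prop where
  mono : Monotone xs
  ge : ∀ v, v ≤ xs v

/-- Two elements of `S` in every interval of length `(1 + ε) v` inside `[n₁, xs v)`. -/
def DenseG (S : ℕ → Prop) (xs : ℕ → ℕ) (n1 : ℕ) : Prop := ∀ ε : ℝ, 0 < ε → ∀ᶠ v : ℕ in atTop,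
  ∀ a h : ℕ, n1 ≤ a → (1 + ε) * v ≤ h → a + h < xs v → ∃ s t : ℕ,
    a < s ∧ s < t ∧ t ≤ a + h ∧ S s ∧ S t

/-- An empty block of length `(1 - ε) v` in `[v, xs v]`. -/
def EmptG (S : ℕ → Prop) (xs : ℕ → ℕ) : Prop := ∀ ε : ℝ, 0 < ε → ∀ᶠ v : ℕ in atTop,
  ∃ b h : ℕ, v ≤ b ∧ b + h ≤ xs v ∧ (1 - ε) * v ≤ h ∧ ∀ m, b < m → m ≤ b + h → ¬ S m

/-- A block with a single element, in its centre. -/
def CentG (S : ℕ → Prop) (xs : ℕ → ℕ) : Prop := ∀ ε : ℝ, 0 < ε → ∀ᶠ v : ℕ in atTop,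
  ∃ c h : ℕ, v + h ≤ c ∧ c + h < xs v ∧ (1 - ε) / 2 * v ≤ h ∧ S c ∧
    ∀ m, c ≤ m + h → m ≤ c + h → S m → m = c

lemma CentG.infinite {S : ℕ → Prop} {xs : ℕ → ℕ} (hC : CentG S xs) : (Set.ofPred S).Infinite := by
  obtain ⟨n0, h0⟩ := eventually_atTop.mp (hC 1 one_pos)
  refine Set.infinite_of_not_bddAbove ?_
  rintro ⟨B, hB⟩
  obtain ⟨c, h, h1, -, -, hS, -⟩ := h0 (max n0 (B + 1)) (le_max_left _ _)
  have h2 : c ≤ B := hB hS
  have h3 : B + 1 ≤ max n0 (B + 1) := le_max_right _ _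
  omega

/-- The largest `v` with `xs v ≤ x`. -/
noncomputable def VV (xs : ℕ → ℕ) (x : ℕ) : ℕ := by
  classical exact Nat.findGreatest (fun v => xs v ≤ x) x

lemma VV_spec {xs : ℕ → ℕ} {x : ℕ} (h0 : xs 0 ≤ x) : xs (VV xs x) ≤ x := by
  classical
  unfold VV
  exact Nat.findGreatest_spec (P := fun v => xs v ≤ x) (Nat.zero_le x) h0

lemma VV_lt {xs : ℕ → ℕ} (hG : Grid xs) {x : ℕ} : x < xs (VV xs x + 1) := by
  classical
  by_contra hcon
  push Not at hcon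
  have h1 : VV xs x + 1 ≤ x := le_trans (hG.ge _) hcon
  have h2 : VV xs x + 1 ≤ VV xs x := by
    conv_rhs => unfold VV
    exact Nat.le_findGreatest h1 hcon
  omega

lemma VV_ge {xs : ℕ → ℕ} (hG : Grid xs) {v x : ℕ} (h : xs v ≤ x) : v ≤ VV xs x := by
  classical
  unfold VV
  exact Nat.le_findGreatest (le_trans (hG.ge v) h) h

lemma VV_tendsto {xs : ℕ → ℕ} (hG : Grid xs) : Tendsto (VV xs) atTop atTop := by
  refine tendsto_atTop.mpr (fun b => ?_)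
  filter_upwards [eventually_ge_atTop (xs b)] with x hx
  exact VV_ge hG hx

section
variable {S : ℕ → Prop} {xs : ℕ → ℕ}

/-- The scale of `p_N`. -/
noncomputable def vN (S : ℕ → Prop) (xs : ℕ → ℕ) (N : ℕ) : ℕ := VV xs (Nat.nth S N)

lemma vN_tendsto (hinf : (Set.ofPred S).Infinite) (hG : Grid xs) :
    Tendsto (vN S xs) atTop atTop := (VV_tendsto hG).comp (nth_tendsto hinf)

/-- All late gaps, and sums of two consecutive gaps, up to `p_N` are at most `(1 + ε) v_N`. -/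
lemma gaps_upper (hinf : (Set.ofPred S).Infinite) (hG : Grid xs) {n1 : ℕ}
    (hU : DenseG S xs n1) {ε : ℝ} (hε : 0 < ε) :
    ∀ᶠ N : ℕ in atTop, ∀ k : ℕ, n1 ≤ Nat.nth S k →
      (k + 1 ≤ N → ((Nat.nth S (k + 1) : ℕ) : ℝ) - (Nat.nth S k : ℕ) ≤ (1 + ε) * vN S xs N) ∧
      (k + 2 ≤ N → ((Nat.nth S (k + 2) : ℕ) : ℝ) - (Nat.nth S k : ℕ) ≤ (1 + ε) * vN S xs N) := by
  have hv := vN_tendsto hinf hG
  have hv1 : Tendsto (fun N => vN S xs N + 1) atTop atTop := (tendsto_add_atTop_nat 1).comp hv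
  obtain ⟨K, hK⟩ := exists_nat_ge (8 / ε + 8)
  filter_upwards [hv1.eventually (hU (ε / 2) (by linarith)), hv.eventually_ge_atTop K]
    with N h1 h2 k hk
  set v := vN S xs N with hvd
  have hxlt : Nat.nth S N < xs (v + 1) := VV_lt hG
  set h : ℕ := ⌈(1 + ε / 2) * ((v + 1 : ℕ) : ℝ)⌉₊ with hh
  have hle : (1 + ε / 2) * ((v + 1 : ℕ) : ℝ) ≤ h := Nat.le_ceil _
  have hlt : (h : ℝ) < (1 + ε / 2) * ((v + 1 : ℕ) : ℝ) + 1 :=
    Nat.ceil_lt_add_one (by positivity)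
  have hvK : 8 / ε + 8 ≤ (v : ℝ) := le_trans hK (by exact_mod_cast h2)
  have hεv : 8 ≤ ε * v := by
    have h3 : 8 / ε ≤ v := by linarith
    rw [div_le_iff₀ hε] at h3
    linarith
  have hfin : (h : ℝ) ≤ (1 + ε) * v := by
    push_cast at hlt
    have h8 : (8 : ℝ) ≤ v := by
      have : 0 < 8 / ε := by positivity
      linarith
    have h9 : 2 + ε / 2 ≤ ε / 2 * v := by nlinarith
    nlinarith
  constructor
  · intro hkN
    by_contra hcon
    push Not at hcon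
    have h3 : ((Nat.nth S k + h : ℕ) : ℝ) < (Nat.nth S (k + 1) : ℕ) := by push_cast; linarith
    have h4 : Nat.nth S k + h < Nat.nth S (k + 1) := by exact_mod_cast h3
    have h5 : Nat.nth S (k + 1) ≤ Nat.nth S N := (Nat.nth_le_nth hinf).mpr hkN
    obtain ⟨s, t, hs, hst, ht, hSs, -⟩ := h1 (Nat.nth S k) h hk hle (by omega)
    have h6 := nth_succ_le hinf hSs hs
    omega
  · intro hkN
    by_contra hcon
    push Not at hcon
    have h3 : ((Nat.nth S k + h : ℕ) : ℝ) < (Nat.nth S (k + 2) : ℕ) := by push_cast; linarith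
    have h4 : Nat.nth S k + h < Nat.nth S (k + 2) := by exact_mod_cast h3
    have h5 : Nat.nth S (k + 2) ≤ Nat.nth S N := (Nat.nth_le_nth hinf).mpr hkN
    obtain ⟨s, t, hs, hst, ht, hSs, hSt⟩ := h1 (Nat.nth S k) h hk hle (by omega)
    have h6 := nth_succ_le hinf hSs hs
    have h7 : Nat.nth S (k + 2) ≤ t := nth_succ_le hinf hSt (lt_of_le_of_lt h6 hst)
    omega

lemma late (hinf : (Set.ofPred S).Infinite) (n1 : ℕ) : ∃ k0, ∀ k, k0 ≤ k → n1 ≤ Nat.nth S k :=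
  eventually_atTop.mp ((nth_tendsto hinf).eventually_ge_atTop n1)

lemma big_upperG (hinf : (Set.ofPred S).Infinite) (hG : Grid xs) {n1 : ℕ}
    (hU : DenseG S xs n1) {ε : ℝ} (hε : 0 < ε) :
    ∀ᶠ N : ℕ in atTop, (big (Nat.nth S) N : ℝ) ≤ (1 + ε) * vN S xs N := by
  obtain ⟨k0, hk0⟩ := late hinf n1
  set B : ℕ := (Finset.range k0).sup (fun n => Nat.nth S (n + 1) - Nat.nth S n) with hB
  filter_upwards [gaps_upper hinf hG hU hε, (vN_tendsto hinf hG).eventually_ge_atTop B]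
    with N h1 h2
  have hall : ∀ k ∈ Finset.range N, ((Nat.nth S (k + 1) - Nat.nth S k : ℕ) : ℝ) ≤
      (1 + ε) * vN S xs N := by
    intro k hk
    have hkN := Finset.mem_range.mp hk
    have hle : Nat.nth S k ≤ Nat.nth S (k + 1) := (Nat.nth_le_nth hinf).mpr (by omega)
    rcases lt_or_ge k k0 with h | h
    · have h3 : Nat.nth S (k + 1) - Nat.nth S k ≤ B :=
        Finset.le_sup (f := fun n => Nat.nth S (n + 1) - Nat.nth S n) (Finset.mem_range.mpr h)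
      have h4 : ((Nat.nth S (k + 1) - Nat.nth S k : ℕ) : ℝ) ≤ vN S xs N := by
        exact_mod_cast le_trans h3 h2
      have h5 : (0 : ℝ) ≤ vN S xs N := Nat.cast_nonneg _
      nlinarith
    · rw [Nat.cast_sub hle]
      exact (h1 k (hk0 k h)).1 (by omega)
  have hnn : 0 ≤ (1 + ε) * (vN S xs N : ℝ) := by positivity
  have : big (Nat.nth S) N ≤ ⌊(1 + ε) * (vN S xs N : ℝ)⌋₊ :=
    Finset.sup_le (fun k hk => Nat.le_floor (hall k hk))
  calc ((big (Nat.nth S) N : ℕ) : ℝ) ≤ (⌊(1 + ε) * (vN S xs N : ℝ)⌋₊ : ℕ) := by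
        exact_mod_cast this
    _ ≤ _ := Nat.floor_le hnn

lemma prd_upperG (hinf : (Set.ofPred S).Infinite) (hG : Grid xs) {n1 : ℕ}
    (hU : DenseG S xs n1) {ε : ℝ} (hε : 0 < ε) :
    ∀ᶠ N : ℕ in atTop, (prd (Nat.nth S) N : ℝ) ≤ (1 / 4 + ε) * (vN S xs N : ℝ) ^ 2 := by
  set δ : ℝ := min 1 ε with hδ
  have hδ0 : 0 < δ := lt_min one_pos hε
  have hδ1 : δ ≤ 1 := min_le_left _ _
  have hδ2 : δ ≤ ε := min_le_right _ _
  obtain ⟨k0, hk0⟩ := late hinf n1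
  set f : ℕ → ℕ := fun n => (Nat.nth S (n + 1) - Nat.nth S n) * (Nat.nth S n - Nat.nth S (n - 1))
    with hf
  set B : ℕ := (Finset.range (k0 + 1)).sup f with hB
  have hvt : Tendsto (fun N => (vN S xs N : ℝ)) atTop atTop :=
    tendsto_natCast_atTop_atTop.comp (vN_tendsto hinf hG)
  have hv2 : Tendsto (fun N => (vN S xs N : ℝ) ^ 2) atTop atTop :=
    (tendsto_pow_atTop two_ne_zero).comp hvt
  filter_upwards [gaps_upper hinf hG hU hδ0, hv2.eventually_ge_atTop (4 * (B : ℝ))] with N h1 h2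
  have hv0 : 0 ≤ (vN S xs N : ℝ) ^ 2 := by positivity
  have hall : ∀ k ∈ Finset.Ico 1 N, ((f k : ℕ) : ℝ) ≤ (1 / 4 + ε) * (vN S xs N : ℝ) ^ 2 := by
    intro k hk
    obtain ⟨hk1, hkN⟩ := Finset.mem_Ico.mp hk
    rcases lt_or_ge k (k0 + 1) with h | h
    · have h3 : f k ≤ B := Finset.le_sup (Finset.mem_range.mpr h)
      have h4 : ((f k : ℕ) : ℝ) ≤ B := by exact_mod_cast h3
      nlinarith
    · obtain ⟨i, rfl⟩ : ∃ i, k = i + 1 := ⟨k - 1, by omega⟩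
      have hi := (h1 i (hk0 i (by omega))).2 (by omega)
      have h3 : Nat.nth S i ≤ Nat.nth S (i + 1) := (Nat.nth_le_nth hinf).mpr (by omega)
      have h4 : Nat.nth S (i + 1) ≤ Nat.nth S (i + 2) := (Nat.nth_le_nth hinf).mpr (by omega)
      show (((Nat.nth S (i + 1 + 1) - Nat.nth S (i + 1)) * (Nat.nth S (i + 1) -
        Nat.nth S (i + 1 - 1)) : ℕ) : ℝ) ≤ _
      rw [Nat.add_sub_cancel, Nat.cast_mul, Nat.cast_sub h3, Nat.cast_sub h4]
      have hxy : ((Nat.nth S i : ℕ) : ℝ) ≤ ((Nat.nth S (i + 1) : ℕ) : ℝ) := by exact_mod_cast h3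
      have hyz : ((Nat.nth S (i + 1) : ℕ) : ℝ) ≤ ((Nat.nth S (i + 2) : ℕ) : ℝ) := by
        exact_mod_cast h4
      set x : ℝ := ((Nat.nth S i : ℕ) : ℝ)
      set y : ℝ := ((Nat.nth S (i + 1) : ℕ) : ℝ)
      set z : ℝ := ((Nat.nth S (i + 2) : ℕ) : ℝ)
      have h5 : (z - y) * (y - x) ≤ (z - x) ^ 2 / 4 := by nlinarith [sq_nonneg (z - y - (y - x))]
      have h6 : (z - x) ^ 2 ≤ ((1 + δ) * vN S xs N) ^ 2 := pow_le_pow_left₀ (by linarith) hi 2
      have h7 : (1 + δ) ^ 2 / 4 ≤ 1 / 4 + ε := by nlinarith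
      calc (z - y) * (y - x) ≤ (z - x) ^ 2 / 4 := h5
        _ ≤ ((1 + δ) * vN S xs N) ^ 2 / 4 := by linarith
        _ = (1 + δ) ^ 2 / 4 * (vN S xs N : ℝ) ^ 2 := by ring
        _ ≤ (1 / 4 + ε) * (vN S xs N : ℝ) ^ 2 := mul_le_mul_of_nonneg_right h7 hv0
  have hnn : 0 ≤ (1 / 4 + ε) * (vN S xs N : ℝ) ^ 2 := by positivity
  have : prd (Nat.nth S) N ≤ ⌊(1 / 4 + ε) * (vN S xs N : ℝ) ^ 2⌋₊ :=
    Finset.sup_le (fun k hk => Nat.le_floor (hall k hk))
  calc ((prd (Nat.nth S) N : ℕ) : ℝ) ≤ (⌊(1 / 4 + ε) * (vN S xs N : ℝ) ^ 2⌋₊ : ℕ) := by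
        exact_mod_cast this
    _ ≤ _ := Nat.floor_le hnn

lemma vN_spec (hinf : (Set.ofPred S).Infinite) :
    ∀ᶠ N : ℕ in atTop, xs (vN S xs N) ≤ Nat.nth S N := by
  filter_upwards [(nth_tendsto hinf).eventually_ge_atTop (xs 0)] with N hN
  exact VV_spec hN

lemma big_lowerG (hinf : (Set.ofPred S).Infinite) (hG : Grid xs) (hE : EmptG S xs) {ε : ℝ}
    (hε : 0 < ε) :
    ∀ᶠ N : ℕ in atTop, (1 - ε) * vN S xs N ≤ (big (Nat.nth S) N : ℝ) := by
  filter_upwards [vN_spec (xs := xs) hinf, (vN_tendsto hinf hG).eventually (hE ε hε),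
    (vN_tendsto hinf hG).eventually_ge_atTop (Nat.nth S 0)] with N h2 h3 h4
  obtain ⟨b, h, hb, hbh, hh, hno⟩ := h3
  obtain ⟨k, hk1, hk2⟩ := exists_straddle hinf (le_trans h4 hb)
  have hk3 : b + h < Nat.nth S (k + 1) := by
    by_contra hcon
    exact hno _ hk2 (not_lt.mp hcon) (Nat.nth_mem_of_infinite hinf _)
  have hgap : h ≤ Nat.nth S (k + 1) - Nat.nth S k := by omega
  rcases Nat.eq_zero_or_pos h with hz | hpos
  · subst hz
    have hh' : (1 - ε) * (vN S xs N : ℝ) ≤ 0 := by simpa using hh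
    have : (0 : ℝ) ≤ (big (Nat.nth S) N : ℝ) := Nat.cast_nonneg _
    linarith
  · have hkN : k < N := by
      have : Nat.nth S k < Nat.nth S N := by omega
      exact (Nat.nth_lt_nth hinf).mp this
    have h5 : Nat.nth S (k + 1) - Nat.nth S k ≤ big (Nat.nth S) N :=
      Finset.le_sup (f := fun n => Nat.nth S (n + 1) - Nat.nth S n) (Finset.mem_range.mpr hkN)
    have h6 : (h : ℝ) ≤ (big (Nat.nth S) N : ℝ) := by exact_mod_cast le_trans hgap h5
    linarith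

lemma prd_lowerG (hinf : (Set.ofPred S).Infinite) (hG : Grid xs) (hC : CentG S xs) {ε : ℝ}
    (hε : 0 < ε) :
    ∀ᶠ N : ℕ in atTop, (1 / 4 - ε) * (vN S xs N : ℝ) ^ 2 ≤ (prd (Nat.nth S) N : ℝ) := by
  set δ : ℝ := min 1 (2 * ε) with hδ
  have hδ0 : 0 < δ := lt_min one_pos (by linarith)
  have hδ1 : δ ≤ 1 := min_le_left _ _
  have hδ2 : δ ≤ 2 * ε := min_le_right _ _
  filter_upwards [vN_spec (xs := xs) hinf, (vN_tendsto hinf hG).eventually (hC δ hδ0),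
    (vN_tendsto hinf hG).eventually_gt_atTop (Nat.nth S 0)] with N h2 h3 h4
  obtain ⟨c, h, hc, hch, hh, hSc, hno⟩ := h3
  obtain ⟨k, hk⟩ : ∃ k, Nat.nth S k = c := by
    have : c ∈ Set.range (Nat.nth S) := by rw [Nat.range_nth_of_infinite hinf]; exact hSc
    exact this
  have hk1 : 1 ≤ k := by
    rcases Nat.eq_zero_or_pos k with h0 | h0
    · subst h0; omega
    · exact h0
  have hkN : k < N := by
    have : Nat.nth S k < Nat.nth S N := by omega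
    exact (Nat.nth_lt_nth hinf).mp this
  have hup : c + h < Nat.nth S (k + 1) := by
    by_contra hcon
    have h5 : Nat.nth S k < Nat.nth S (k + 1) := (Nat.nth_lt_nth hinf).mpr (by omega)
    have h6 := hno (Nat.nth S (k + 1)) (by omega) (not_lt.mp hcon)
      (Nat.nth_mem_of_infinite hinf _)
    omega
  have hdn : Nat.nth S (k - 1) + h < c := by
    by_contra hcon
    have h5 : Nat.nth S (k - 1) < Nat.nth S k := (Nat.nth_lt_nth hinf).mpr (by omega)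
    have h6 := hno (Nat.nth S (k - 1)) (by omega) (by omega)
      (Nat.nth_mem_of_infinite hinf _)
    omega
  have hprod : h * h ≤ (Nat.nth S (k + 1) - Nat.nth S k) * (Nat.nth S k - Nat.nth S (k - 1)) :=
    Nat.mul_le_mul (by omega) (by omega)
  have h5 : (Nat.nth S (k + 1) - Nat.nth S k) * (Nat.nth S k - Nat.nth S (k - 1)) ≤
      prd (Nat.nth S) N :=
    Finset.le_sup (f := fun n => (Nat.nth S (n + 1) - Nat.nth S n) *
      (Nat.nth S n - Nat.nth S (n - 1))) (Finset.mem_Ico.mpr ⟨hk1, hkN⟩)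
  have h6 : (h : ℝ) * h ≤ (prd (Nat.nth S) N : ℝ) := by exact_mod_cast le_trans hprod h5
  have h8 : 0 ≤ (1 - δ) / 2 * (vN S xs N : ℝ) := mul_nonneg (by linarith) (Nat.cast_nonneg _)
  have h9 : ((1 - δ) / 2 * (vN S xs N : ℝ)) * ((1 - δ) / 2 * (vN S xs N : ℝ)) ≤ (h : ℝ) * h :=
    mul_le_mul hh hh h8 (le_trans h8 hh)
  have h10 : 0 ≤ (vN S xs N : ℝ) ^ 2 := by positivity
  have h11 : (1 / 4 - ε) ≤ (1 - δ) ^ 2 / 4 := by nlinarith
  calc (1 / 4 - ε) * (vN S xs N : ℝ) ^ 2 ≤ (1 - δ) ^ 2 / 4 * (vN S xs N : ℝ) ^ 2 :=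
        mul_le_mul_of_nonneg_right h11 h10
    _ = ((1 - δ) / 2 * (vN S xs N : ℝ)) * ((1 - δ) / 2 * (vN S xs N : ℝ)) := by ring
    _ ≤ _ := le_trans h9 h6

/-- The deterministic half for a general grid. -/
theorem quo_tendstoG (hG : Grid xs) {n1 : ℕ} (hU : DenseG S xs n1) (hE : EmptG S xs)
    (hC : CentG S xs) : Tendsto (quo (Nat.nth S)) atTop (𝓝 (1 / 4)) := by
  have hinf := hC.infinite
  have hpos : ∀ᶠ N : ℕ in atTop, (0 : ℝ) < vN S xs N := by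
    filter_upwards [(vN_tendsto hinf hG).eventually_gt_atTop 0] with N hN
    exact_mod_cast hN
  have hM : Tendsto (fun N => (big (Nat.nth S) N : ℝ) / (vN S xs N : ℝ)) atTop (𝓝 1) := by
    rw [Metric.tendsto_nhds]
    intro ε hε
    filter_upwards [hpos, big_upperG hinf hG hU (half_pos hε), big_lowerG hinf hG hE (half_pos hε)]
      with N h0 h1 h2
    rw [Real.dist_eq, abs_lt]
    constructor
    · have : 1 - ε / 2 ≤ (big (Nat.nth S) N : ℝ) / (vN S xs N : ℝ) := (le_div_iff₀ h0).mpr h2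
      linarith
    · have : (big (Nat.nth S) N : ℝ) / (vN S xs N : ℝ) ≤ 1 + ε / 2 := (div_le_iff₀ h0).mpr h1
      linarith
  have hP : Tendsto (fun N => (prd (Nat.nth S) N : ℝ) / (vN S xs N : ℝ) ^ 2) atTop
      (𝓝 (1 / 4)) := by
    rw [Metric.tendsto_nhds]
    intro ε hε
    filter_upwards [hpos, prd_upperG hinf hG hU (half_pos hε), prd_lowerG hinf hG hC (half_pos hε)]
      with N h0 h1 h2
    have h00 : (0 : ℝ) < (vN S xs N : ℝ) ^ 2 := by positivity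
    rw [Real.dist_eq, abs_lt]
    constructor
    · have : 1 / 4 - ε / 2 ≤ (prd (Nat.nth S) N : ℝ) / (vN S xs N : ℝ) ^ 2 :=
        (le_div_iff₀ h00).mpr h2
      linarith
    · have : (prd (Nat.nth S) N : ℝ) / (vN S xs N : ℝ) ^ 2 ≤ 1 / 4 + ε / 2 :=
        (div_le_iff₀ h00).mpr h1
      linarith
  have h := hP.div (hM.pow 2) (by norm_num)
  rw [show (1 / 4 : ℝ) / 1 ^ 2 = 1 / 4 by norm_num] at h
  refine h.congr' ?_
  filter_upwards [hpos] with N h0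
  show (prd (Nat.nth S) N : ℝ) / (vN S xs N : ℝ) ^ 2 / ((big (Nat.nth S) N : ℝ) /
    (vN S xs N : ℝ)) ^ 2 = (prd (Nat.nth S) N : ℝ) / (big (Nat.nth S) N : ℝ) ^ 2
  rw [div_pow, div_div_div_cancel_right₀ (by positivity)]

end

end Pool.Agent.CRM31
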