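import Mathlib

set_option autoImplicit false

open MeasureTheory ProbabilityTheory Filter Topology

namespace Pool.Agent.CRM31

variable {Ω : Type*} [MeasurableSpace Ω]

/-- The event that `n` is selected when `n ∈ C` and not selected when `n ∉ C`. -/
def pat (A : ℕ → Set Ω) (C : Set ℕ) (n : ℕ) : Set Ω := {ω | ω ∈ A n ↔ n ∈ C}

omit [MeasurableSpace Ω] in
lemma pat_of_mem {A : ℕ → Set Ω} {C : Set ℕ} {n : ℕ} (h : n ∈ C) : pat A C n = A n := by
  ext ω; simp [pat, h]

omit [MeasurableSpace Ω] in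
lemma pat_of_notMem {A : ℕ → Set Ω} {C : Set ℕ} {n : ℕ} (h : n ∉ C) : pat A C n = (A n)ᶜ := by
  ext ω; simp [pat, h]

/-- The event that on `I` exactly the elements of `C` are selected. -/
def blk (A : ℕ → Set Ω) (C : Set ℕ) (I : Finset ℕ) : Set Ω := ⋂ n ∈ I, pat A C n

omit [MeasurableSpace Ω] in
lemma mem_blk {A : ℕ → Set Ω} {C : Set ℕ} {I : Finset ℕ} {ω : Ω} :
    ω ∈ blk A C I ↔ ∀ n ∈ I, (ω ∈ A n ↔ n ∈ C) := by
  simp [blk, pat]

omit [MeasurableSpace Ω] in
lemma pat_measurable_gen (A : ℕ → Set Ω) (C : Set ℕ) (n : ℕ) :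
    MeasurableSet[MeasurableSpace.generateFrom {A n}] (pat A C n) := by
  have h1 : MeasurableSet[MeasurableSpace.generateFrom {A n}] (A n) :=
    MeasurableSpace.measurableSet_generateFrom (Set.mem_singleton _)
  by_cases h : n ∈ C
  · rw [pat_of_mem h]; exact h1
  · rw [pat_of_notMem h]; exact h1.compl

section
variable {μ : Measure Ω} {A : ℕ → Set Ω} (hA : ∀ n, MeasurableSet (A n)) (hind : iIndepSet A μ)

include hA in
lemma pat_measurable (C : Set ℕ) (n : ℕ) : MeasurableSet (pat A C n) := by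
  by_cases h : n ∈ C
  · rw [pat_of_mem h]; exact hA n
  · rw [pat_of_notMem h]; exact (hA n).compl

include hA in
lemma blk_measurable (C : Set ℕ) (I : Finset ℕ) : MeasurableSet (blk A C I) := by
  unfold blk
  exact Finset.measurableSet_biInter _ (fun n _ => pat_measurable hA C n)

lemma gen_le (hA : ∀ n, MeasurableSet (A n)) (n : ℕ) :
    MeasurableSpace.generateFrom {A n} ≤ ‹MeasurableSpace Ω› := by
  refine MeasurableSpace.generateFrom_le ?_
  intro t ht
  rw [Set.mem_singleton_iff] at ht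
  subst ht
  exact hA n

include hind in
lemma blk_meas (C : Set ℕ) (I : Finset ℕ) :
    μ.real (blk A C I) = ∏ n ∈ I, μ.real (pat A C n) := by
  have h := ((iIndepSet_iff_iIndep A μ).mp hind).meas_biInter (S := I) (s := pat A C)
    (fun n _ => pat_measurable_gen A C n)
  unfold blk Measure.real
  rw [h, ENNReal.toReal_prod]

omit [MeasurableSpace Ω] in
/-- A block event depends only on the selections in the block. -/
lemma blk_meas_sup (C : Set ℕ) (I : Finset ℕ) (T : Set ℕ) (hT : ∀ n ∈ I, n ∈ T) :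
    MeasurableSet[⨆ n ∈ T, MeasurableSpace.generateFrom {A n}] (blk A C I) := by
  unfold blk
  refine @Finset.measurableSet_biInter Ω ℕ (⨆ n ∈ T, MeasurableSpace.generateFrom {A n}) _ I
    (fun n hn => ?_)
  have hle : MeasurableSpace.generateFrom {A n} ≤
      ⨆ n ∈ T, MeasurableSpace.generateFrom {A n} :=
    le_iSup₂_of_le (f := fun n (_ : n ∈ T) => MeasurableSpace.generateFrom {A n}) n (hT n hn) le_rfl
  exact hle _ (pat_measurable_gen A C n)

include hA hind in
lemma no_block (C : Set ℕ) (I : ℕ → Finset ℕ)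
    (hI : ∀ i k, i < k → Disjoint (I i) (I k)) [IsProbabilityMeasure μ] (k : ℕ) :
    μ.real (⋂ i ∈ Finset.range k, (blk A C (I i))ᶜ) =
      ∏ i ∈ Finset.range k, (1 - μ.real (blk A C (I i))) := by
  induction k with
  | zero => simp
  | succ k ih =>
    rw [Finset.prod_range_succ, ← ih]
    have hset : (⋂ i ∈ Finset.range (k + 1), (blk A C (I i))ᶜ) =
        (⋂ i ∈ Finset.range k, (blk A C (I i))ᶜ) ∩ (blk A C (I k))ᶜ := by
      ext ω
      simp only [Set.mem_iInter, Finset.mem_range, Set.mem_inter_iff]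
      constructor
      · intro h
        exact ⟨fun i hi => h i (by omega), h k (by omega)⟩
      · rintro ⟨h1, h2⟩ i hi
        rcases Nat.lt_succ_iff_lt_or_eq.mp hi with h | h
        · exact h1 i h
        · subst h; exact h2
    rw [hset]
    set T : Set ℕ := {n | ∃ i < k, n ∈ I i} with hT
    set U : Set ℕ := {n | n ∈ I k} with hU
    have hdis : Disjoint T U := by
      rw [Set.disjoint_left]
      rintro n ⟨i, hi, hn⟩ hn2
      exact (Finset.disjoint_left.mp (hI i k hi)) hn hn2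
    have hindep := indep_iSup_of_disjoint (m := fun n => MeasurableSpace.generateFrom {A n})
      (gen_le hA) ((iIndepSet_iff_iIndep A μ).mp hind) hdis
    have hm1 : MeasurableSet[⨆ n ∈ T, MeasurableSpace.generateFrom {A n}]
        (⋂ i ∈ Finset.range k, (blk A C (I i))ᶜ) := by
      refine @Finset.measurableSet_biInter Ω ℕ (⨆ n ∈ T, MeasurableSpace.generateFrom {A n}) _
        (Finset.range k) (fun i hi => ?_)
      refine @MeasurableSet.compl Ω _ (⨆ n ∈ T, MeasurableSpace.generateFrom {A n}) ?_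
      exact blk_meas_sup C (I i) T (fun n hn => ⟨i, Finset.mem_range.mp hi, hn⟩)
    have hm2 : MeasurableSet[⨆ n ∈ U, MeasurableSpace.generateFrom {A n}]
        ((blk A C (I k))ᶜ) := by
      refine @MeasurableSet.compl Ω _ (⨆ n ∈ U, MeasurableSpace.generateFrom {A n}) ?_
      exact blk_meas_sup C (I k) U (fun n hn => hn)
    have h1 := (Indep_iff _ _ μ).mp hindep _ _ hm1 hm2
    have h2 : μ.real ((⋂ i ∈ Finset.range k, (blk A C (I i))ᶜ) ∩ (blk A C (I k))ᶜ) =
        μ.real (⋂ i ∈ Finset.range k, (blk A C (I i))ᶜ) * μ.real ((blk A C (I k))ᶜ) := by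
      unfold Measure.real
      rw [h1, ENNReal.toReal_mul]
    rw [h2, measureReal_compl (blk_measurable hA C (I k))]
    simp

include hA hind in
lemma no_block_le (C : Set ℕ) (I : ℕ → Finset ℕ)
    (hI : ∀ i k, i < k → Disjoint (I i) (I k)) [IsProbabilityMeasure μ] (k : ℕ) :
    μ.real (⋂ i ∈ Finset.range k, (blk A C (I i))ᶜ) ≤
      Real.exp (- ∑ i ∈ Finset.range k, μ.real (blk A C (I i))) := by
  rw [no_block hA hind C I hI k, ← Finset.sum_neg_distrib, Real.exp_sum]
  refine Finset.prod_le_prod (fun i _ => ?_) (fun i _ => ?_)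
  · have : μ.real (blk A C (I i)) ≤ 1 := measureReal_le_one
    linarith
  · have := Real.add_one_le_exp (- μ.real (blk A C (I i)))
    linarith

end

/-- First Borel–Cantelli lemma with an eventual real bound. -/
lemma bc (μ : Measure Ω) [IsProbabilityMeasure μ] (s : ℕ → Set Ω) (g : ℕ → ℝ) (hg : Summable g)
    (h : ∀ᶠ n : ℕ in atTop, μ.real (s n) ≤ g n) : ∀ᵐ ω ∂μ, ∀ᶠ n : ℕ in atTop, ω ∉ s n := by
  obtain ⟨n0, h0⟩ := eventually_atTop.mp h
  have h1 : ∀ᵐ ω ∂μ, ∀ᶠ n : ℕ in atTop, ω ∉ s (n + n0) := by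
    refine ae_eventually_notMem ?_
    have hsum : Summable (fun n => g (n + n0)) := (summable_nat_add_iff n0).mpr hg
    have hle : ∑' n, μ (s (n + n0)) ≤ ∑' n, ENNReal.ofReal (g (n + n0)) := by
      refine ENNReal.tsum_le_tsum (fun n => ?_)
      have h2 := h0 (n + n0) (by omega)
      rw [← ofReal_measureReal (μ := μ) (s := s (n + n0))]
      exact ENNReal.ofReal_le_ofReal h2
    exact ne_top_of_le_ne_top hsum.tsum_ofReal_ne_top hle
  filter_upwards [h1] with ω hω
  obtain ⟨m, hm⟩ := eventually_atTop.mp hω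
  refine eventually_atTop.mpr ⟨m + n0, fun n hn => ?_⟩
  have := hm (n - n0) (by omega)
  rwa [Nat.sub_add_cancel (by omega)] at this

omit [MeasurableSpace Ω] in
/-- If at most one element of `I` is selected then, for some `c ∈ I`, none of `I \ {c}` is. -/
lemma few_subset {A : ℕ → Set Ω} {I : Finset ℕ} (hne : I.Nonempty) :
    {ω | ∀ a ∈ I, ∀ b ∈ I, ω ∈ A a → ω ∈ A b → a = b} ⊆
      ⋃ c ∈ I, blk A ∅ (I.erase c) := by
  intro ω hω
  simp only [Set.mem_iUnion]
  by_cases hex : ∃ c ∈ I, ω ∈ A c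
  · obtain ⟨c, hc, hωc⟩ := hex
    refine ⟨c, hc, mem_blk.mpr (fun n hn => ?_)⟩
    simp only [Set.mem_empty_iff_false, iff_false]
    intro hn2
    exact (Finset.ne_of_mem_erase hn) (hω n (Finset.mem_of_mem_erase hn) c hc hn2 hωc)
  · push Not at hex
    obtain ⟨c, hc⟩ := hne
    refine ⟨c, hc, mem_blk.mpr (fun n hn => ?_)⟩
    simp only [Set.mem_empty_iff_false, iff_false]
    exact hex n (Finset.mem_of_mem_erase hn)

/-- Probability that at most one element of `I` is selected. -/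
lemma few_le {μ : Measure Ω} [IsProbabilityMeasure μ] {A : ℕ → Set Ω}
    (hA : ∀ n, MeasurableSet (A n)) (hind : iIndepSet A μ) {I : Finset ℕ} (hne : I.Nonempty) :
    μ.real {ω | ∀ a ∈ I, ∀ b ∈ I, ω ∈ A a → ω ∈ A b → a = b} ≤
      Real.exp 1 * I.card * Real.exp (- ∑ n ∈ I, μ.real (A n)) := by
  have h1 : μ.real {ω | ∀ a ∈ I, ∀ b ∈ I, ω ∈ A a → ω ∈ A b → a = b} ≤
      ∑ c ∈ I, μ.real (blk A ∅ (I.erase c)) := by
    refine le_trans (measureReal_mono (few_subset hne) (measure_ne_top _ _)) ?_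
    exact measureReal_biUnion_finset_le _ _
  refine le_trans h1 ?_
  have h2 : ∀ c ∈ I, μ.real (blk A ∅ (I.erase c)) ≤
      Real.exp 1 * Real.exp (- ∑ n ∈ I, μ.real (A n)) := by
    intro c hc
    rw [blk_meas hind]
    have h3 : ∏ n ∈ I.erase c, μ.real (pat A ∅ n) ≤
        ∏ n ∈ I.erase c, Real.exp (- μ.real (A n)) := by
      refine Finset.prod_le_prod (fun n _ => measureReal_nonneg) (fun n _ => ?_)
      rw [pat_of_notMem (Set.notMem_empty n), measureReal_compl (hA n)]
      have := Real.add_one_le_exp (- μ.real (A n))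
      simp only [probReal_univ]
      linarith
    refine le_trans h3 ?_
    rw [← Real.exp_sum, ← Real.exp_add, Real.exp_le_exp, Finset.sum_neg_distrib]
    have h4 : ∑ n ∈ I, μ.real (A n) = ∑ n ∈ I.erase c, μ.real (A n) + μ.real (A c) :=
      (Finset.sum_erase_add _ _ hc).symm
    have h5 : μ.real (A c) ≤ 1 := measureReal_le_one
    linarith
  calc ∑ c ∈ I, μ.real (blk A ∅ (I.erase c))
      ≤ ∑ _c ∈ I, Real.exp 1 * Real.exp (- ∑ n ∈ I, μ.real (A n)) := Finset.sum_le_sum h2
    _ = _ := by rw [Finset.sum_const, nsmul_eq_mul]; ring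

/-- Lower bound for the probability of an empty block. -/
lemma empty_ge {μ : Measure Ω} [IsProbabilityMeasure μ] {A : ℕ → Set Ω}
    (hA : ∀ n, MeasurableSet (A n)) (hind : iIndepSet A μ) (I : Finset ℕ) {η : ℝ} (hη : 0 < η)
    (hq : ∀ n ∈ I, μ.real (A n) ≤ η / (1 + η)) :
    Real.exp (- ((1 + η) * ∑ n ∈ I, μ.real (A n))) ≤ μ.real (blk A ∅ I) := by
  rw [blk_meas hind, Finset.mul_sum, ← Finset.sum_neg_distrib, Real.exp_sum]
  refine Finset.prod_le_prod (fun n _ => (Real.exp_pos _).le) (fun n hn => ?_)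
  rw [pat_of_notMem (Set.notMem_empty n), measureReal_compl (hA n)]
  simp only [probReal_univ]
  set q := μ.real (A n) with hqd
  have h0 : 0 ≤ q := measureReal_nonneg
  have h1 : q ≤ η / (1 + η) := hq n hn
  have hη1 : 0 < 1 + η := by linarith
  have h2 : q * (1 + η) ≤ η := (le_div_iff₀ hη1).mp h1
  have h3 : 0 < 1 - q := by nlinarith
  have h4 : 1 - (1 - q)⁻¹ ≤ Real.log (1 - q) := Real.one_sub_inv_le_log_of_pos h3
  have h5 : -((1 + η) * q) ≤ 1 - (1 - q)⁻¹ := by
    have h6 : (1 - q)⁻¹ ≤ 1 + (1 + η) * q := by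
      rw [inv_le_iff_one_le_mul₀ h3]
      nlinarith
    linarith
  calc Real.exp (-((1 + η) * q)) ≤ Real.exp (Real.log (1 - q)) :=
        Real.exp_le_exp.mpr (le_trans h5 h4)
    _ = 1 - q := Real.exp_log h3

/-- Lower bound for the probability that exactly `c` is selected in `I`. -/
lemma single_ge {μ : Measure Ω} [IsProbabilityMeasure μ] {A : ℕ → Set Ω}
    (hA : ∀ n, MeasurableSet (A n)) (hind : iIndepSet A μ) (I : Finset ℕ) {η : ℝ} (hη : 0 < η)
    (hq : ∀ n ∈ I, μ.real (A n) ≤ η / (1 + η)) {c : ℕ} (hc : c ∈ I) (C : Set ℕ) (hcC : c ∈ C)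
    (hC : ∀ n ∈ I, n ∈ C → n = c) :
    μ.real (A c) * Real.exp (- ((1 + η) * ∑ n ∈ I, μ.real (A n))) ≤ μ.real (blk A C I) := by
  have h1 := empty_ge hA hind (I.erase c) hη (fun n hn => hq n (Finset.mem_of_mem_erase hn))
  rw [blk_meas hind] at h1
  rw [blk_meas hind, ← Finset.mul_prod_erase I _ hc, pat_of_mem hcC]
  refine mul_le_mul_of_nonneg_left ?_ measureReal_nonneg
  have h2 : ∏ n ∈ I.erase c, μ.real (pat A C n) = ∏ n ∈ I.erase c, μ.real (pat A ∅ n) := by
    refine Finset.prod_congr rfl (fun n hn => ?_)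
    have hne : n ∉ C := fun h => (Finset.ne_of_mem_erase hn) (hC n (Finset.mem_of_mem_erase hn) h)
    rw [pat_of_notMem hne, pat_of_notMem (Set.notMem_empty n)]
  rw [h2]
  refine le_trans ?_ h1
  rw [Real.exp_le_exp]
  have h4 : ∑ n ∈ I, μ.real (A n) = ∑ n ∈ I.erase c, μ.real (A n) + μ.real (A c) :=
    (Finset.sum_erase_add _ _ hc).symm
  have h5 : 0 ≤ μ.real (A c) := measureReal_nonneg
  rw [h4]
  nlinarith

end Pool.Agent.CRM31
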