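import Pool.Agent.CRM31.Det
import Pool.Agent.CRM31.Prob

set_option autoImplicit false

open MeasureTheory ProbabilityTheory Filter Topology

namespace Pool.Agent.CRM31

/-- Regularity of selection probabilities: they tend to zero, and the sum over the interval of
length `δ log² n` after `n` is asymptotic to `δ log n`. -/
structure Reg (q : ℕ → ℝ) : Prop where
  zero : Tendsto q atTop (𝓝 0)
  avg : ∀ δ : ℝ, 0 < δ → Tendsto (fun n : ℕ =>
    (∑ m ∈ Finset.Ioc n (n + ⌊δ * Real.log n ^ 2⌋₊), q m) / Real.log n) atTop (𝓝 δ)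

lemma log_top : Tendsto (fun n : ℕ => Real.log (n : ℝ)) atTop atTop :=
  Real.tendsto_log_atTop.comp tendsto_natCast_atTop_atTop

/-- `log² n ≤ n ^ s` for large `n`. -/
lemma log_sq_le {s : ℝ} (hs : 0 < s) :
    ∀ᶠ n : ℕ in atTop, Real.log (n : ℝ) ^ 2 ≤ (n : ℝ) ^ s := by
  have h1 := (isLittleO_log_rpow_atTop (r := s / 2) (by linarith)).bound (c := 1) one_pos
  have h2 := tendsto_natCast_atTop_atTop.eventually h1 (f := fun n : ℕ => (n : ℝ))
  filter_upwards [h2, eventually_ge_atTop 1] with n hn hn1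
  have hn0 : (0 : ℝ) < n := by exact_mod_cast hn1
  rw [Real.norm_eq_abs, Real.norm_eq_abs, one_mul, abs_of_nonneg (Real.log_natCast_nonneg n),
    abs_of_nonneg (Real.rpow_nonneg hn0.le _)] at hn
  calc Real.log (n : ℝ) ^ 2 ≤ ((n : ℝ) ^ (s / 2)) ^ 2 :=
        pow_le_pow_left₀ (Real.log_natCast_nonneg n) hn 2
    _ = (n : ℝ) ^ s := by
        rw [← Real.rpow_natCast, ← Real.rpow_mul hn0.le]
        congr 1
        push_cast
        ring

variable {Ω : Type*} [MeasurableSpace Ω]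

lemma dense_ae {μ : Measure Ω} [IsProbabilityMeasure μ] {A : ℕ → Set Ω}
    (hA : ∀ n, MeasurableSet (A n)) (hind : iIndepSet A μ) (hR : Reg (fun n => μ.real (A n)))
    {ε : ℝ} (hε : 0 < ε) :
    ∀ᵐ ω ∂μ, ∀ᶠ n : ℕ in atTop, ∃ a b : ℕ, n < a ∧ a < b ∧
      (b : ℝ) ≤ n + (1 + ε) * (Real.log n) ^ 2 ∧ ω ∈ A a ∧ ω ∈ A b := by
  set L : ℕ → ℕ := fun n => ⌊(1 + ε) * Real.log n ^ 2⌋₊ with hL
  set I : ℕ → Finset ℕ := fun n => Finset.Ioc n (n + L n) with hI
  set s : ℕ → Set Ω := fun n => {ω | ∀ a ∈ I n, ∀ b ∈ I n, ω ∈ A a → ω ∈ A b → a = b} with hs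
  have hLle : ∀ n : ℕ, (L n : ℝ) ≤ (1 + ε) * Real.log n ^ 2 := fun n =>
    Nat.floor_le (by positivity)
  have hbound : ∀ᶠ n : ℕ in atTop, μ.real (s n) ≤
      (Real.exp 1 * (1 + ε)) * (n : ℝ) ^ (-(1 + ε / 4)) := by
    have h1 : ∀ᶠ n : ℕ in atTop, 1 + ε / 2 <
        (∑ m ∈ Finset.Ioc n (n + ⌊(1 + ε) * Real.log n ^ 2⌋₊), μ.real (A m)) / Real.log n :=
      (hR.avg (1 + ε) (by linarith)).eventually_const_lt (by linarith)
    filter_upwards [h1, log_top.eventually_ge_atTop 1, log_sq_le (s := ε / 4) (by linarith),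
      eventually_ge_atTop 1] with n h1 h2 h3 h4
    have hn0 : (0 : ℝ) < n := by exact_mod_cast h4
    have hlog : 0 < Real.log (n : ℝ) := by linarith
    have hL1 : 1 ≤ L n := by
      refine Nat.le_floor ?_
      push_cast
      nlinarith
    have hne : (I n).Nonempty := ⟨n + 1, Finset.mem_Ioc.mpr ⟨by omega, by omega⟩⟩
    have h5 := few_le hA hind hne
    have hcard : ((I n).card : ℝ) = L n := by
      simp [hI]
    have h6 : (1 + ε / 2) * Real.log n ≤ ∑ m ∈ I n, μ.real (A m) :=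
      ((lt_div_iff₀ hlog).mp h1).le
    have h7 : Real.exp (- ∑ m ∈ I n, μ.real (A m)) ≤ (n : ℝ) ^ (-(1 + ε / 2)) := by
      rw [Real.rpow_def_of_pos hn0, Real.exp_le_exp]
      linarith
    have h8 : (L n : ℝ) ≤ (1 + ε) * (n : ℝ) ^ (ε / 4) :=
      le_trans (hLle n) (mul_le_mul_of_nonneg_left h3 (by linarith))
    have h9 : (0 : ℝ) ≤ (n : ℝ) ^ (-(1 + ε / 2)) := Real.rpow_nonneg hn0.le _
    calc μ.real (s n) ≤ Real.exp 1 * (I n).card * Real.exp (- ∑ m ∈ I n, μ.real (A m)) := h5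
      _ = Real.exp 1 * (L n : ℝ) * Real.exp (- ∑ m ∈ I n, μ.real (A m)) := by rw [hcard]
      _ ≤ Real.exp 1 * ((1 + ε) * (n : ℝ) ^ (ε / 4)) * (n : ℝ) ^ (-(1 + ε / 2)) := by
          refine mul_le_mul ?_ h7 (Real.exp_pos _).le ?_
          · exact mul_le_mul_of_nonneg_left h8 (Real.exp_pos _).le
          · have : 0 ≤ (n : ℝ) ^ (ε / 4) := Real.rpow_nonneg hn0.le _
            have := Real.exp_pos 1
            positivity
      _ = (Real.exp 1 * (1 + ε)) * ((n : ℝ) ^ (ε / 4) * (n : ℝ) ^ (-(1 + ε / 2))) := by ring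
      _ = _ := by
          rw [← Real.rpow_add hn0]
          congr 2
          ring
  have hsum : Summable (fun n : ℕ => (Real.exp 1 * (1 + ε)) * (n : ℝ) ^ (-(1 + ε / 4))) :=
    (Real.summable_nat_rpow.mpr (by linarith)).mul_left _
  filter_upwards [bc μ s _ hsum hbound] with ω hω
  filter_upwards [hω] with n hn
  have hn' : ¬ ∀ a ∈ I n, ∀ b ∈ I n, ω ∈ A a → ω ∈ A b → a = b := hn
  push Not at hn'
  obtain ⟨a, ha, b, hb, hωa, hωb, hab⟩ := hn'
  have key : ∀ x y, x ∈ I n → y ∈ I n → ω ∈ A x → ω ∈ A y → x < y →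
      ∃ a b : ℕ, n < a ∧ a < b ∧ (b : ℝ) ≤ n + (1 + ε) * (Real.log n) ^ 2 ∧ ω ∈ A a ∧ ω ∈ A b := by
    intro x y hx hy hωx hωy hxy
    refine ⟨x, y, (Finset.mem_Ioc.mp hx).1, hxy, ?_, hωx, hωy⟩
    have h1 : y ≤ n + L n := (Finset.mem_Ioc.mp hy).2
    have h2 : (y : ℝ) ≤ n + L n := by exact_mod_cast h1
    have := hLle n
    linarith
  rcases lt_or_gt_of_ne hab with h | h
  · exact key a b ha hb hωa hωb h
  · exact key b a hb ha hωb hωa h

end Pool.Agent.CRM31
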