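import Pool.Agent.CRM31.DetG
import Pool.Agent.CRM31.Prob
import Pool.Agent.CRM31.Upper

set_option autoImplicit false

open MeasureTheory ProbabilityTheory Filter Topology

namespace Pool.Agent.CRM31

/-- The sum of `q` over `(a, a + t]`. -/
noncomputable def QQ (q : ℕ → ℝ) (a t : ℕ) : ℝ := ∑ m ∈ Finset.Ioc a (a + t), q m

/-- The probability that nothing is selected in `(a, a + h]`. -/
noncomputable def pp (q : ℕ → ℝ) (a h : ℕ) : ℝ := ∏ m ∈ Finset.Ioc a (a + h), (1 - q m)

/-- Selection probabilities with a two-sided bound for the local density on the scale `log² n`. -/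
structure TwoSided (q : ℕ → ℝ) (c₁ c₂ : ℝ) : Prop where
  nonneg : ∀ n, 0 ≤ q n
  le_one : ∀ n, q n ≤ 1
  half : ∀ᶠ n : ℕ in atTop, q n ≤ 1 / 2
  pos : 0 < c₁
  dens : ∀ δ : ℝ, 0 < δ → ∀ᶠ n : ℕ in atTop,
    c₁ * δ * Real.log n ≤ QQ q n ⌊δ * Real.log n ^ 2⌋₊ ∧
      QQ q n ⌊δ * Real.log n ^ 2⌋₊ ≤ c₂ * δ * Real.log n

lemma Ioc_split (a s t : ℕ) : Finset.Ioc a (a + (s + t)) =
    Finset.Ioc a (a + s) ∪ Finset.Ioc (a + s) (a + s + t) := by
  ext x
  simp only [Finset.mem_Ioc, Finset.mem_union]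
  omega

lemma Ioc_disj (a s t : ℕ) :
    Disjoint (Finset.Ioc a (a + s)) (Finset.Ioc (a + s) (a + s + t)) := by
  rw [Finset.disjoint_left]
  intro x h1 h2
  have := (Finset.mem_Ioc.mp h1).2
  have := (Finset.mem_Ioc.mp h2).1
  omega

lemma QQ_add (q : ℕ → ℝ) (a s t : ℕ) : QQ q a (s + t) = QQ q a s + QQ q (a + s) t := by
  unfold QQ
  rw [Ioc_split, Finset.sum_union (Ioc_disj a s t)]

lemma pp_add (q : ℕ → ℝ) (a s t : ℕ) : pp q a (s + t) = pp q a s * pp q (a + s) t := by
  unfold pp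
  rw [Ioc_split, Finset.prod_union (Ioc_disj a s t)]

section
variable {q : ℕ → ℝ} {c₁ c₂ : ℝ}

lemma QQ_nonneg (hT : TwoSided q c₁ c₂) (a t : ℕ) : 0 ≤ QQ q a t :=
  Finset.sum_nonneg (fun m _ => hT.nonneg m)

lemma pp_nonneg (hT : TwoSided q c₁ c₂) (a h : ℕ) : 0 ≤ pp q a h :=
  Finset.prod_nonneg (fun m _ => by have := hT.le_one m; linarith)

lemma pp_le_exp (hT : TwoSided q c₁ c₂) (a h : ℕ) : pp q a h ≤ Real.exp (- QQ q a h) := by
  unfold pp QQ
  rw [← Finset.sum_neg_distrib, Real.exp_sum]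
  refine Finset.prod_le_prod (fun m _ => by have := hT.le_one m; linarith) (fun m _ => ?_)
  have := Real.add_one_le_exp (- q m)
  linarith

lemma pp_le_one (hT : TwoSided q c₁ c₂) (a h : ℕ) : pp q a h ≤ 1 := by
  refine le_trans (pp_le_exp hT a h) ?_
  rw [Real.exp_le_one_iff]
  have := QQ_nonneg hT a h
  linarith

/-- Lower bound for `pp` where all probabilities are at most one half. -/
lemma exp_le_pp (hT : TwoSided q c₁ c₂) {n1 : ℕ} (hn1 : ∀ n, n1 ≤ n → q n ≤ 1 / 2) {a : ℕ}
    (ha : n1 ≤ a) (h : ℕ) : Real.exp (- (2 * QQ q a h)) ≤ pp q a h := by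
  unfold pp QQ
  rw [Finset.mul_sum, ← Finset.sum_neg_distrib, Real.exp_sum]
  refine Finset.prod_le_prod (fun m _ => (Real.exp_pos _).le) (fun m hm => ?_)
  have h1 : q m ≤ 1 / 2 := hn1 m (by have := (Finset.mem_Ioc.mp hm).1; omega)
  have h0 := hT.nonneg m
  have h3 : 0 < 1 - q m := by linarith
  have h4 : 1 - (1 - q m)⁻¹ ≤ Real.log (1 - q m) := Real.one_sub_inv_le_log_of_pos h3
  have h6 : (1 - q m)⁻¹ ≤ 1 + 2 * q m := by
    rw [inv_le_iff_one_le_mul₀ h3]
    nlinarith
  calc Real.exp (-(2 * q m)) ≤ Real.exp (Real.log (1 - q m)) :=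
        Real.exp_le_exp.mpr (by linarith)
    _ = 1 - q m := Real.exp_log h3

/-- Uniform lower bound for the local density. -/
lemma QQ_lower (hT : TwoSided q c₁ c₂) {δ : ℝ} (hδ : 0 < δ) : ∃ n0 : ℕ, 3 ≤ n0 ∧
    ∀ x a t : ℕ, n0 ≤ x → a + t ≤ x →
      c₁ * ((t : ℝ) - n0 - δ * Real.log x ^ 2) / Real.log x ≤ QQ q a t := by
  obtain ⟨n2, h2⟩ := eventually_atTop.mp (hT.dens δ hδ)
  obtain ⟨n3, h3⟩ := eventually_atTop.mp (log_top.eventually_ge_atTop (1 + 1 / δ))
  set n0 := max 3 (max n2 n3) with hn0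
  have hn03 : 3 ≤ n0 := le_max_left _ _
  have hn02 : n2 ≤ n0 := le_trans (le_max_left _ _) (le_max_right _ _)
  have hn033 : n3 ≤ n0 := le_trans (le_max_right _ _) (le_max_right _ _)
  have hc := hT.pos
  have hlogpos : ∀ b : ℕ, n0 ≤ b → 1 + 1 / δ ≤ Real.log b := fun b hb => h3 b (by omega)
  -- late starting points
  have hA : ∀ t b x : ℕ, n0 ≤ b → b + t ≤ x →
      c₁ * ((t : ℝ) - δ * Real.log x ^ 2) / Real.log x ≤ QQ q b t := by
    intro t
    induction t using Nat.strong_induction_on with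
    | _ t ih =>
      intro b x hb hx
      have hlb := hlogpos b hb
      have hδi : 0 < 1 / δ := by positivity
      have hlb0 : 0 < Real.log b := by linarith
      have hb0 : (0 : ℝ) < b := by
        have : 0 < b := by omega
        exact_mod_cast this
      have hbx : (b : ℝ) ≤ x := by exact_mod_cast (by omega : b ≤ x)
      have hlbx : Real.log b ≤ Real.log x := Real.log_le_log hb0 hbx
      have hlx0 : 0 < Real.log x := by linarith
      set w : ℕ := ⌊δ * Real.log b ^ 2⌋₊ with hw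
      have hwle : (w : ℝ) ≤ δ * Real.log b ^ 2 := Nat.floor_le (by positivity)
      have hw1 : 1 ≤ w := by
        refine Nat.le_floor ?_
        push_cast
        have h5 : 1 ≤ Real.log b := by linarith
        have h6 : 1 / δ ≤ Real.log b := by linarith
        have h7 : 1 ≤ δ * Real.log b := by
          rw [div_le_iff₀ hδ] at h6
          linarith
        nlinarith
      rcases lt_or_ge t w with h | h
      · have h5 : (t : ℝ) ≤ w := by exact_mod_cast h.le
        have h6 : Real.log b ^ 2 ≤ Real.log x ^ 2 := pow_le_pow_left₀ hlb0.le hlbx 2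
        have h7 : (t : ℝ) - δ * Real.log x ^ 2 ≤ 0 := by nlinarith
        have h8 : c₁ * ((t : ℝ) - δ * Real.log x ^ 2) / Real.log x ≤ 0 :=
          div_nonpos_of_nonpos_of_nonneg (mul_nonpos_of_nonneg_of_nonpos hc.le h7) hlx0.le
        exact le_trans h8 (QQ_nonneg hT _ _)
      · have h5 := ih (t - w) (by omega) (b + w) x (by omega) (by omega)
        have h6 := (h2 b (by omega)).1
        have h7 : QQ q b t = QQ q b w + QQ q (b + w) (t - w) := by
          rw [← QQ_add, Nat.add_sub_cancel' h]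
        rw [h7]
        have h8 : c₁ * (w : ℝ) / Real.log x ≤ c₁ * δ * Real.log b := by
          rw [div_le_iff₀ hlx0]
          have h9 : (w : ℝ) ≤ δ * Real.log b * Real.log x := by
            refine le_trans hwle ?_
            have : δ * Real.log b ^ 2 = δ * Real.log b * Real.log b := by ring
            rw [this]
            exact mul_le_mul_of_nonneg_left hlbx (by positivity)
          calc c₁ * (w : ℝ) ≤ c₁ * (δ * Real.log b * Real.log x) :=
                mul_le_mul_of_nonneg_left h9 hc.le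
            _ = _ := by ring
        rw [Nat.cast_sub h] at h5
        have h10 : c₁ * ((t : ℝ) - δ * Real.log x ^ 2) / Real.log x =
            c₁ * (w : ℝ) / Real.log x + c₁ * ((t : ℝ) - w - δ * Real.log x ^ 2) / Real.log x := by
          rw [← add_div]; congr 1; ring
        rw [h10]
        linarith
  refine ⟨n0, hn03, fun x a t hx hax => ?_⟩
  have hlx := hlogpos x hx
  have hδi : 0 < 1 / δ := by positivity
  have hlx0 : 0 < Real.log x := by linarith
  rcases le_or_gt n0 a with h | h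
  · refine le_trans ?_ (hA t a x h hax)
    refine div_le_div_of_nonneg_right ?_ hlx0.le
    refine mul_le_mul_of_nonneg_left ?_ hc.le
    have : (0 : ℝ) ≤ n0 := Nat.cast_nonneg _
    linarith
  · rcases le_or_gt t (n0 - a) with h4 | h4
    · have h5 : (t : ℝ) ≤ n0 := by exact_mod_cast (by omega : t ≤ n0)
      have h6 : 0 ≤ δ * Real.log x ^ 2 := by positivity
      have h8 : c₁ * ((t : ℝ) - n0 - δ * Real.log x ^ 2) / Real.log x ≤ 0 :=
        div_nonpos_of_nonpos_of_nonneg (mul_nonpos_of_nonneg_of_nonpos hc.le (by linarith)) hlx0.le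
      exact le_trans h8 (QQ_nonneg hT _ _)
    · have h5 : QQ q a t = QQ q a (n0 - a) + QQ q (a + (n0 - a)) (t - (n0 - a)) := by
        rw [← QQ_add, Nat.add_sub_cancel' h4.le]
      have h6 := hA (t - (n0 - a)) (a + (n0 - a)) x (by omega) (by omega)
      rw [h5]
      refine le_trans ?_ (le_add_of_nonneg_left (QQ_nonneg hT _ _))
      refine le_trans ?_ h6
      refine div_le_div_of_nonneg_right ?_ hlx0.le
      refine mul_le_mul_of_nonneg_left ?_ hc.le
      have h7 : (t : ℝ) - n0 ≤ ((t - (n0 - a) : ℕ) : ℝ) := by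
        rw [Nat.cast_sub h4.le, Nat.cast_sub h.le]
        have : (0 : ℝ) ≤ a := Nat.cast_nonneg _
        linarith
      linarith

/-- The expected number of empty blocks of length `h` in `(0, x]`. -/
noncomputable def NN (q : ℕ → ℝ) (x h : ℕ) : ℝ := ∑ a ∈ Finset.range (x + 1 - h), pp q a h

lemma NN_mono_x (hT : TwoSided q c₁ c₂) {x y : ℕ} (hxy : x ≤ y) (h : ℕ) : NN q x h ≤ NN q y h := by
  unfold NN
  exact Finset.sum_le_sum_of_subset_of_nonneg (Finset.range_mono (by omega))
    (fun a _ _ => pp_nonneg hT a h)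

lemma NN_anti_h (hT : TwoSided q c₁ c₂) (x : ℕ) {h k : ℕ} (hk : h ≤ k) : NN q x k ≤ NN q x h := by
  unfold NN
  have h1 : ∑ a ∈ Finset.range (x + 1 - k), pp q a k ≤
      ∑ a ∈ Finset.range (x + 1 - k), pp q a h := by
    refine Finset.sum_le_sum (fun a _ => ?_)
    obtain ⟨t, rfl⟩ := Nat.exists_eq_add_of_le hk
    rw [pp_add]
    exact mul_le_of_le_one_right (pp_nonneg hT a h) (pp_le_one hT _ _)
  refine le_trans h1 ?_
  exact Finset.sum_le_sum_of_subset_of_nonneg (Finset.range_mono (by omega))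
    (fun a _ _ => pp_nonneg hT a h)

/-- Lengthening the blocks by `t` reduces the expected number by a factor. -/
lemma NN_shift (hT : TwoSided q c₁ c₂) (x h t : ℕ) {E : ℝ}
    (hE : ∀ a, a + t ≤ x → E ≤ QQ q a t) :
    NN q x (h + t) ≤ Real.exp (- E) * NN q x h := by
  unfold NN
  rw [Finset.mul_sum]
  have h1 : ∑ a ∈ Finset.range (x + 1 - (h + t)), pp q a (h + t) ≤
      ∑ a ∈ Finset.range (x + 1 - (h + t)), Real.exp (- E) * pp q a h := by
    refine Finset.sum_le_sum (fun a ha => ?_)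
    have ha' := Finset.mem_range.mp ha
    rw [pp_add, mul_comm]
    refine mul_le_mul_of_nonneg_right ?_ (pp_nonneg hT a h)
    refine le_trans (pp_le_exp hT _ _) ?_
    rw [Real.exp_le_exp]
    have := hE (a + h) (by omega)
    linarith
  refine le_trans h1 ?_
  exact Finset.sum_le_sum_of_subset_of_nonneg (Finset.range_mono (by omega))
    (fun a _ _ => mul_nonneg (Real.exp_pos _).le (pp_nonneg hT a h))

end

end Pool.Agent.CRM31
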