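import Pool.Agent.CRM31.Grid

set_option autoImplicit false

open MeasureTheory ProbabilityTheory Filter Topology

namespace Pool.Agent.CRM31

variable {q : ℕ → ℝ} {c₁ c₂ : ℝ}

lemma TwoSided.c2_pos (hT : TwoSided q c₁ c₂) : 0 < c₂ := by
  obtain ⟨n, h1, h2⟩ := ((hT.dens 1 one_pos).and (log_top.eventually_gt_atTop 0)).exists
  have h3 : c₁ * 1 * Real.log n ≤ c₂ * 1 * Real.log n := le_trans h1.1 h1.2
  have h4 : c₁ ≤ c₂ := by nlinarith
  exact lt_of_lt_of_le hT.pos h4

lemma QQ_mono (hT : TwoSided q c₁ c₂) (a : ℕ) {s t : ℕ} (h : s ≤ t) : QQ q a s ≤ QQ q a t := by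
  obtain ⟨u, rfl⟩ := Nat.exists_eq_add_of_le h
  rw [QQ_add]
  exact le_add_of_nonneg_right (QQ_nonneg hT _ _)

/-- At scale `c log² x` the expected number of empty blocks is large. -/
lemma NN_large (hT : TwoSided q c₁ c₂) : ∃ c : ℝ, 0 < c ∧
    ∀ᶠ x : ℕ in atTop, 1 ≤ NN q x ⌊c * Real.log x ^ 2⌋₊ := by
  have hc2 := hT.c2_pos
  set c : ℝ := 1 / (8 * c₂) with hc
  have hc0 : 0 < c := by positivity
  refine ⟨c, hc0, ?_⟩
  obtain ⟨n1, hn1⟩ := eventually_atTop.mp hT.half
  obtain ⟨n2, hn2⟩ := eventually_atTop.mp (hT.dens (2 * c) (by positivity))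
  have hsmall : ∀ᶠ x : ℕ in atTop, c * Real.log x ^ 2 ≤ x / 8 := by
    filter_upwards [log_sq_le (s := 1 / 2) (by norm_num), eventually_ge_atTop 1,
      (tendsto_natCast_atTop_atTop (R := ℝ)).eventually_ge_atTop ((8 * c) ^ 2)] with x h1 h2 h3
    have hx0 : (0 : ℝ) < x := by exact_mod_cast h2
    have h7 : 8 * c ≤ (x : ℝ) ^ (1 / 2 : ℝ) := by
      rw [← Real.sqrt_eq_rpow]
      exact Real.le_sqrt_of_sq_le h3
    have h8 : 8 * c * Real.log x ^ 2 ≤ (x : ℝ) ^ (1 / 2 : ℝ) * (x : ℝ) ^ (1 / 2 : ℝ) :=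
      mul_le_mul h7 h1 (by positivity) (Real.rpow_nonneg hx0.le _)
    rw [← Real.rpow_add hx0] at h8
    norm_num at h8
    linarith
  filter_upwards [hsmall, log_top.eventually_ge_atTop 6, eventually_ge_atTop (2 * n1 + 2),
    eventually_ge_atTop (2 * n2 + 2), eventually_ge_atTop 8] with x h1 h2 h3 h4 h5
  set h : ℕ := ⌊c * Real.log x ^ 2⌋₊ with hh
  have hxr : (8 : ℝ) ≤ x := by exact_mod_cast h5
  have hx0 : (0 : ℝ) < x := by linarith
  have hhle : (h : ℝ) ≤ c * Real.log x ^ 2 := Nat.floor_le (by positivity)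
  -- each late block has a large probability
  have hterm : ∀ a ∈ Finset.Ico (x / 2) (x + 1 - h), Real.exp (- (Real.log x / 2)) ≤ pp q a h := by
    intro a ha
    obtain ⟨ha1, ha2⟩ := Finset.mem_Ico.mp ha
    have hax : (a : ℝ) ≤ x := by exact_mod_cast (by omega : a ≤ x)
    have ha3 : (x : ℝ) - 1 ≤ 2 * a := by
      have : x ≤ 2 * a + 1 := by omega
      have h6 : (x : ℝ) ≤ 2 * a + 1 := by exact_mod_cast this
      linarith
    have ha0 : (0 : ℝ) < a := by linarith
    have hle1 : Real.log a ≤ Real.log x := Real.log_le_log ha0 hax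
    have hge1 : Real.log x - 1 ≤ Real.log a := by
      have h6 : (x : ℝ) ≤ Real.exp 1 * a := by
        have h7 : (2.7182818283 : ℝ) < Real.exp 1 := Real.exp_one_gt_d9
        nlinarith
      have h8 : Real.log x ≤ Real.log (Real.exp 1 * a) := Real.log_le_log hx0 h6
      rw [Real.log_mul (Real.exp_pos 1).ne' ha0.ne', Real.log_exp] at h8
      linarith
    have hsq : Real.log x ^ 2 ≤ 2 * Real.log a ^ 2 := by
      have h6 : (Real.log x - 1) ^ 2 ≤ Real.log a ^ 2 :=
        pow_le_pow_left₀ (by linarith) hge1 2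
      nlinarith
    have hfl : h ≤ ⌊2 * c * Real.log a ^ 2⌋₊ := by
      refine Nat.floor_le_floor ?_
      nlinarith
    have hQ : QQ q a h ≤ Real.log x / 4 := by
      refine le_trans (QQ_mono hT a hfl) ?_
      refine le_trans (hn2 a (by omega)).2 ?_
      have h6 : c₂ * (2 * c) = 1 / 4 := by
        rw [hc]; field_simp; norm_num
      calc c₂ * (2 * c) * Real.log a = 1 / 4 * Real.log a := by rw [h6]
        _ ≤ Real.log x / 4 := by linarith
    refine le_trans ?_ (exp_le_pp hT hn1 (by omega : n1 ≤ a) h)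
    rw [Real.exp_le_exp]
    linarith
  have hsum : ((Finset.Ico (x / 2) (x + 1 - h)).card : ℝ) * Real.exp (- (Real.log x / 2)) ≤
      NN q x h := by
    have h6 := Finset.card_nsmul_le_sum _ _ _ hterm
    rw [nsmul_eq_mul] at h6
    refine le_trans h6 ?_
    unfold NN
    refine Finset.sum_le_sum_of_subset_of_nonneg ?_ (fun a _ _ => pp_nonneg hT a h)
    intro a ha
    exact Finset.mem_range.mpr (Finset.mem_Ico.mp ha).2
  refine le_trans ?_ hsum
  have hhx : h ≤ x / 2 := by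
    have h6 : (h : ℝ) ≤ x / 8 := le_trans hhle h1
    have h7 : ((8 * h : ℕ) : ℝ) ≤ x := by push_cast; linarith
    have h8 : 8 * h ≤ x := by exact_mod_cast h7
    omega
  have hcard : (x : ℝ) / 4 ≤ ((Finset.Ico (x / 2) (x + 1 - h)).card : ℝ) := by
    rw [Nat.card_Ico]
    have h6 : (h : ℝ) ≤ x / 8 := le_trans hhle h1
    have h7 : ((x / 2 : ℕ) : ℝ) ≤ (x : ℝ) / 2 := Nat.cast_div_le
    rw [Nat.cast_sub (by omega), Nat.cast_sub (by omega)]
    push_cast
    linarith
  have hE : (x : ℝ) / 4 * Real.exp (- (Real.log x / 2)) = Real.exp (Real.log x / 2) / 4 := by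
    have h6 : (x : ℝ) = Real.exp (Real.log x) := (Real.exp_log hx0).symm
    calc (x : ℝ) / 4 * Real.exp (- (Real.log x / 2))
        = Real.exp (Real.log x) * Real.exp (- (Real.log x / 2)) / 4 := by
          rw [Real.exp_log hx0]; ring
      _ = Real.exp (Real.log x / 2) / 4 := by
          rw [← Real.exp_add]; congr 2; ring
  have h9 : 1 ≤ Real.exp (Real.log x / 2) / 4 := by
    have := Real.add_one_le_exp (Real.log x / 2)
    linarith
  calc (1 : ℝ) ≤ (x : ℝ) / 4 * Real.exp (- (Real.log x / 2)) := by rw [hE]; exact h9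
    _ ≤ _ := mul_le_mul_of_nonneg_right hcard (Real.exp_pos _).le

lemma NN_exists (hT : TwoSided q c₁ c₂) (v : ℕ) : ∃ x, 1 ≤ NN q x v := by
  obtain ⟨c, hc, h⟩ := NN_large hT
  have h2 : Tendsto (fun x : ℕ => c * Real.log x ^ 2) atTop atTop :=
    ((tendsto_pow_atTop two_ne_zero).comp log_top).const_mul_atTop hc
  obtain ⟨x, h3, h4⟩ := (h.and (h2.eventually_ge_atTop (v : ℝ))).exists
  exact ⟨x, le_trans h3 (NN_anti_h hT x (Nat.le_floor h4))⟩

/-- The grid: the least `x` with at least one expected empty block of length `v` in `(0, x]`. -/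
noncomputable def gx (hT : TwoSided q c₁ c₂) (v : ℕ) : ℕ := by
  classical exact Nat.find (NN_exists hT v)

lemma gx_spec (hT : TwoSided q c₁ c₂) (v : ℕ) : 1 ≤ NN q (gx hT v) v := by
  classical
  unfold gx
  exact Nat.find_spec (NN_exists hT v)

lemma gx_min (hT : TwoSided q c₁ c₂) {v x : ℕ} (h : x < gx hT v) : NN q x v < 1 := by
  classical
  unfold gx at h
  exact not_le.mp (Nat.find_min (NN_exists hT v) h)

lemma gx_le (hT : TwoSided q c₁ c₂) {v x : ℕ} (h : 1 ≤ NN q x v) : gx hT v ≤ x := by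
  by_contra hcon
  push Not at hcon
  have := gx_min hT hcon
  linarith

lemma gx_grid (hT : TwoSided q c₁ c₂) : Grid (gx hT) where
  mono := by
    intro v w hvw
    exact gx_le hT (le_trans (gx_spec hT w) (NN_anti_h hT _ hvw))
  ge := by
    intro v
    by_contra hcon
    push Not at hcon
    have h1 := gx_spec hT v
    unfold NN at h1
    rw [show gx hT v + 1 - v = 0 by omega] at h1
    simp at h1
    linarith

lemma gx_top (hT : TwoSided q c₁ c₂) : Tendsto (gx hT) atTop atTop :=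
  tendsto_atTop_mono (gx_grid hT).ge tendsto_id

/-- `log` of the grid points. -/
noncomputable def lam (hT : TwoSided q c₁ c₂) (v : ℕ) : ℝ := Real.log (gx hT v)

lemma lam_top (hT : TwoSided q c₁ c₂) : Tendsto (lam hT) atTop atTop :=
  log_top.comp (gx_top hT)

lemma grid_upper (hT : TwoSided q c₁ c₂) : ∃ C : ℝ, 0 < C ∧
    ∀ᶠ v : ℕ in atTop, (v : ℝ) ≤ C * lam hT v ^ 2 := by
  obtain ⟨n0, hn0, h0⟩ := QQ_lower hT one_pos
  have hc := hT.pos
  have hl2 : Tendsto (fun v => lam hT v ^ 2) atTop atTop :=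
    (tendsto_pow_atTop two_ne_zero).comp (lam_top hT)
  refine ⟨1 / c₁ + 2, by positivity, ?_⟩
  filter_upwards [(gx_top hT).eventually_ge_atTop n0, eventually_ge_atTop 1,
    hl2.eventually_ge_atTop (n0 : ℝ), (lam_top hT).eventually_gt_atTop 0] with v h1 h2 h3 h4
  set x := gx hT v with hx
  set E : ℝ := c₁ * ((v : ℝ) - n0 - 1 * Real.log x ^ 2) / Real.log x with hE
  have h5 : NN q x v ≤ x * Real.exp (- E) := by
    unfold NN
    have h6 : ∀ a ∈ Finset.range (x + 1 - v), pp q a v ≤ Real.exp (- E) := by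
      intro a ha
      have := Finset.mem_range.mp ha
      refine le_trans (pp_le_exp hT a v) ?_
      rw [Real.exp_le_exp]
      have := h0 x a v h1 (by omega)
      linarith
    refine le_trans (Finset.sum_le_card_nsmul _ _ _ h6) ?_
    rw [nsmul_eq_mul, Finset.card_range]
    refine mul_le_mul_of_nonneg_right ?_ (Real.exp_pos _).le
    exact_mod_cast (by omega : x + 1 - v ≤ x)
  have h6 := gx_spec hT v
  have hx0 : (0 : ℝ) < x := by
    have : 0 < x := by omega
    exact_mod_cast this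
  have hlam : lam hT v = Real.log x := rfl
  rw [hlam] at h3 h4 ⊢
  have h7 : 1 ≤ Real.exp (Real.log x - E) := by
    rw [Real.exp_sub, Real.exp_log hx0, div_eq_mul_inv, ← Real.exp_neg]
    linarith
  have h8 : 0 ≤ Real.log x - E := by
    have := Real.log_nonneg h7
    rwa [Real.log_exp] at this
  have h9 : E ≤ Real.log x := by linarith
  rw [hE, div_le_iff₀ h4] at h9
  have h10 : (v : ℝ) - n0 - Real.log x ^ 2 ≤ Real.log x ^ 2 / c₁ := by
    rw [le_div_iff₀ hc]
    nlinarith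
  have h11 : Real.log x ^ 2 / c₁ = 1 / c₁ * Real.log x ^ 2 := by ring
  nlinarith

lemma grid_lower (hT : TwoSided q c₁ c₂) : ∃ c : ℝ, 0 < c ∧
    ∀ᶠ v : ℕ in atTop, c * lam hT v ^ 2 ≤ v := by
  obtain ⟨c, hc, h⟩ := NN_large hT
  obtain ⟨n2, hn2⟩ := eventually_atTop.mp h
  refine ⟨c / 4, by positivity, ?_⟩
  filter_upwards [(gx_top hT).eventually_ge_atTop (n2 + 4), (lam_top hT).eventually_ge_atTop 2]
    with v h1 h2
  set x := gx hT v with hx
  have h3 := hn2 (x - 1) (by omega)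
  have h4 : NN q (x - 1) v < 1 := gx_min hT (by omega)
  have h5 : ⌊c * Real.log ((x - 1 : ℕ) : ℝ) ^ 2⌋₊ < v := by
    by_contra hcon
    push Not at hcon
    have := NN_anti_h hT (x - 1) hcon
    linarith
  have h6 : c * Real.log ((x - 1 : ℕ) : ℝ) ^ 2 < v := Nat.lt_of_floor_lt h5
  have hx0 : (0 : ℝ) < x := by
    have : 0 < x := by omega
    exact_mod_cast this
  have h7 : Real.log x - 1 ≤ Real.log ((x - 1 : ℕ) : ℝ) := by
    have hx1 : ((x - 1 : ℕ) : ℝ) = x - 1 := by
      rw [Nat.cast_sub (by omega)]; simp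
    have hx2 : (0 : ℝ) < ((x - 1 : ℕ) : ℝ) := by
      have : 0 < x - 1 := by omega
      exact_mod_cast this
    have hx3 : (4 : ℝ) ≤ x := by exact_mod_cast (by omega : 4 ≤ x)
    have h8 : (x : ℝ) ≤ Real.exp 1 * ((x - 1 : ℕ) : ℝ) := by
      rw [hx1]
      have h9 : (2 : ℝ) ≤ Real.exp 1 := by
        have := Real.add_one_le_exp (1 : ℝ)
        linarith
      nlinarith
    have h10 : Real.log x ≤ Real.log (Real.exp 1 * ((x - 1 : ℕ) : ℝ)) := Real.log_le_log hx0 h8
    rw [Real.log_mul (Real.exp_pos 1).ne' hx2.ne', Real.log_exp] at h10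
    linarith
  have hlam : lam hT v = Real.log x := rfl
  rw [hlam] at h2 ⊢
  have h8 : (Real.log x / 2) ^ 2 ≤ Real.log ((x - 1 : ℕ) : ℝ) ^ 2 :=
    pow_le_pow_left₀ (by linarith) (by linarith) 2
  nlinarith

end Pool.Agent.CRM31
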