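import Pool.Agent.CRM31.Upper

set_option autoImplicit false

open Filter Topology

namespace Pool.Agent.CRM31

section
variable {f : ℕ → ℝ} {W : ℕ} (hf0 : ∀ n, 0 ≤ f n) (hfW : ∀ n, f (n + W) = f n)

include hfW in
lemma window_eq (n : ℕ) : ∑ i ∈ Finset.range W, f (n + i) = ∑ i ∈ Finset.range W, f i := by
  induction n with
  | zero => simp
  | succ n ih =>
    rw [← ih]
    have h1 : ∑ i ∈ Finset.range (W + 1), f (n + i) =
        ∑ i ∈ Finset.range W, f (n + i) + f (n + W) := Finset.sum_range_succ _ _
    have h2 : ∑ i ∈ Finset.range (W + 1), f (n + i) =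
        ∑ i ∈ Finset.range W, f (n + (i + 1)) + f (n + 0) := Finset.sum_range_succ' _ _
    have h3 : ∑ i ∈ Finset.range W, f (n + 1 + i) = ∑ i ∈ Finset.range W, f (n + (i + 1)) :=
      Finset.sum_congr rfl (fun i _ => by rw [show n + 1 + i = n + (i + 1) by ring])
    rw [h3]
    have h4 := hfW n
    have h5 : f (n + 0) = f n := rfl
    linarith

include hfW in
lemma windows_eq (n k : ℕ) : ∑ i ∈ Finset.range (k * W), f (n + i) =
    k * ∑ i ∈ Finset.range W, f i := by
  induction k with
  | zero => simp
  | succ k ih =>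
    rw [show (k + 1) * W = k * W + W by ring, Finset.sum_range_add, ih]
    have h1 := window_eq hfW (n + k * W)
    have h2 : ∑ i ∈ Finset.range W, f (n + (k * W + i)) =
        ∑ i ∈ Finset.range W, f (n + k * W + i) :=
      Finset.sum_congr rfl (fun i _ => by rw [Nat.add_assoc])
    rw [h2, h1]
    push_cast
    ring

include hf0 hfW in
lemma range_sum_bounds (hW : 0 < W) (hfs : ∑ i ∈ Finset.range W, f i = W) (n L : ℕ) :
    (L : ℝ) - W ≤ ∑ i ∈ Finset.range L, f (n + i) ∧
      ∑ i ∈ Finset.range L, f (n + i) ≤ (L : ℝ) + W := by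
  have hd : L / W * W + L % W = L := Nat.div_add_mod' L W
  have hm : L % W < W := Nat.mod_lt _ hW
  have hlow : L / W * W ≤ L := Nat.div_mul_le_self L W
  have hup : L ≤ (L / W + 1) * W := by
    have : (L / W + 1) * W = L / W * W + W := by ring
    omega
  constructor
  · have h1 : ∑ i ∈ Finset.range (L / W * W), f (n + i) ≤ ∑ i ∈ Finset.range L, f (n + i) :=
      Finset.sum_le_sum_of_subset_of_nonneg (Finset.range_mono hlow) (fun i _ _ => hf0 _)
    rw [windows_eq hfW, hfs] at h1
    have h2 : (L : ℝ) ≤ ((L / W : ℕ) : ℝ) * W + W := by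
      have : L ≤ L / W * W + W := by omega
      exact_mod_cast this
    linarith
  · have h1 : ∑ i ∈ Finset.range L, f (n + i) ≤
        ∑ i ∈ Finset.range ((L / W + 1) * W), f (n + i) :=
      Finset.sum_le_sum_of_subset_of_nonneg (Finset.range_mono hup) (fun i _ _ => hf0 _)
    rw [windows_eq hfW, hfs] at h1
    have h2 : ((L / W : ℕ) : ℝ) * W ≤ L := by exact_mod_cast hlow
    push_cast at h1
    linarith

include hf0 hfW in
lemma periodic_le (hW : 0 < W) (hfs : ∑ i ∈ Finset.range W, f i = W) (n : ℕ) : f n ≤ W := by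
  have h1 := window_eq hfW n
  rw [hfs] at h1
  have h2 : f (n + 0) ≤ ∑ i ∈ Finset.range W, f (n + i) :=
    Finset.single_le_sum (f := fun i => f (n + i)) (fun i _ => hf0 _) (Finset.mem_range.mpr hW)
  rw [Nat.add_zero, h1] at h2
  exact h2

end

lemma Ioc_sum_eq (g : ℕ → ℝ) (n L : ℕ) :
    ∑ m ∈ Finset.Ioc n (n + L), g m = ∑ i ∈ Finset.range L, g (n + 1 + i) := by
  have h : Finset.Ioc n (n + L) = Finset.Ico (n + 1) (n + 1 + L) := by
    ext x; simp only [Finset.mem_Ioc, Finset.mem_Ico]; omega
  rw [h, Finset.sum_Ico_eq_sum_range, Nat.add_sub_cancel_left]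

/-- Periodic weights of mean one over `log n` are regular. -/
lemma reg_periodic {q f : ℕ → ℝ} {W : ℕ} (hW : 0 < W) (hf0 : ∀ n, 0 ≤ f n)
    (hfW : ∀ n, f (n + W) = f n) (hfs : ∑ i ∈ Finset.range W, f i = W)
    (hq : ∀ᶠ n : ℕ in atTop, q n = f n / Real.log n) : Reg q := by
  have hlog := log_top
  constructor
  · have h1 : Tendsto (fun n : ℕ => (W : ℝ) / Real.log n) atTop (𝓝 0) :=
      hlog.const_div_atTop _
    refine squeeze_zero' ?_ ?_ h1
    · filter_upwards [hq] with n hn
      rw [hn]
      exact div_nonneg (hf0 n) (Real.log_natCast_nonneg n)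
    · filter_upwards [hq] with n hn
      rw [hn]
      exact div_le_div_of_nonneg_right (periodic_le hf0 hfW hW hfs n) (Real.log_natCast_nonneg n)
  · intro δ hδ
    obtain ⟨n0, h0⟩ := eventually_atTop.mp hq
    set L : ℕ → ℕ := fun n => ⌊δ * Real.log n ^ 2⌋₊ with hL
    -- upper and lower comparison functions
    set up : ℕ → ℝ := fun n => (δ * Real.log n ^ 2 + W) / Real.log n / Real.log n with hup
    set lo : ℕ → ℝ := fun n => (δ * Real.log n ^ 2 - 1 - W) / (Real.log n + 1) / Real.log n
      with hlo
    have hupt : Tendsto up atTop (𝓝 δ) := by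
      have h1 : Tendsto (fun x : ℝ => δ + W / x ^ 2) atTop (𝓝 (δ + 0)) := by
        refine tendsto_const_nhds.add ?_
        exact (tendsto_pow_atTop two_ne_zero).const_div_atTop _
      rw [add_zero] at h1
      refine (h1.comp hlog).congr' ?_
      filter_upwards [hlog.eventually_gt_atTop 0] with n hn
      simp only [Function.comp, hup]
      field_simp
    have hlot : Tendsto lo atTop (𝓝 δ) := by
      have h1 : Tendsto (fun x : ℝ => (δ - (1 + W) / x ^ 2) / (1 + 1 / x)) atTop
          (𝓝 ((δ - 0) / (1 + 0))) := by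
        refine Tendsto.div ?_ ?_ (by norm_num)
        · exact tendsto_const_nhds.sub ((tendsto_pow_atTop two_ne_zero).const_div_atTop _)
        · exact tendsto_const_nhds.add (tendsto_id.const_div_atTop _)
      rw [sub_zero, add_zero, div_one] at h1
      refine (h1.comp hlog).congr' ?_
      filter_upwards [hlog.eventually_gt_atTop 0] with n hn
      simp only [Function.comp, hlo]
      have h2 : Real.log n + 1 ≠ 0 := by positivity
      field_simp
      ring
    have hLn : ∀ᶠ n : ℕ in atTop, Real.log ((n : ℝ) + L n) ≤ Real.log n + 1 := by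
      filter_upwards [log_sq_le (s := 1) one_pos, eventually_ge_atTop 1,
        (log_sq_le (s := 1 / 2) (by norm_num)),
        (tendsto_natCast_atTop_atTop (R := ℝ)).eventually_ge_atTop (δ ^ 2)] with n h1 h2 h3 h4
      have hn0 : (0 : ℝ) < n := by exact_mod_cast h2
      have h5 : (L n : ℝ) ≤ δ * Real.log n ^ 2 := Nat.floor_le (by positivity)
      have h6 : δ * Real.log n ^ 2 ≤ n := by
        have h7 : δ ≤ (n : ℝ) ^ (1 / 2 : ℝ) := by
          rw [← Real.sqrt_eq_rpow]
          exact Real.le_sqrt_of_sq_le h4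
        calc δ * Real.log n ^ 2 ≤ (n : ℝ) ^ (1 / 2 : ℝ) * (n : ℝ) ^ (1 / 2 : ℝ) :=
              mul_le_mul h7 h3 (by positivity) (Real.rpow_nonneg hn0.le _)
          _ = n := by
              rw [← Real.rpow_add hn0]
              norm_num
      have h8 : (n : ℝ) + L n ≤ Real.exp 1 * n := by
        have : (2 : ℝ) ≤ Real.exp 1 := by
          have := Real.add_one_le_exp (1 : ℝ)
          linarith
        nlinarith
      have h9 : 0 < (n : ℝ) + L n := by positivity
      calc Real.log ((n : ℝ) + L n) ≤ Real.log (Real.exp 1 * n) := Real.log_le_log h9 h8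
        _ = Real.log n + 1 := by
            rw [Real.log_mul (Real.exp_pos 1).ne' hn0.ne', Real.log_exp]
            ring
    refine tendsto_of_tendsto_of_tendsto_of_le_of_le' hlot hupt ?_ ?_
    · filter_upwards [eventually_ge_atTop n0, hlog.eventually_ge_atTop 1, eventually_ge_atTop 1,
        hLn] with n h1 h2 h3 h4
      have hlp : 0 < Real.log n := by linarith
      have hn0 : (0 : ℝ) < n := by exact_mod_cast h3
      show (δ * Real.log n ^ 2 - 1 - W) / (Real.log n + 1) / Real.log n ≤ _
      refine div_le_div_of_nonneg_right ?_ hlp.le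
      have h5 : ∑ m ∈ Finset.Ioc n (n + L n), q m ≥
          ∑ m ∈ Finset.Ioc n (n + L n), f m * (1 / (Real.log n + 1)) := by
        refine Finset.sum_le_sum (fun m hm => ?_)
        have h6 := Finset.mem_Ioc.mp hm
        rw [h0 m (by omega), div_eq_mul_one_div (f m)]
        refine mul_le_mul_of_nonneg_left ?_ (hf0 m)
        have hm1 : (n : ℝ) ≤ m := by exact_mod_cast h6.1.le
        have hm2 : (m : ℝ) ≤ (n : ℝ) + L n := by exact_mod_cast h6.2
        have hm0 : (0 : ℝ) < m := lt_of_lt_of_le hn0 hm1
        have h7 : Real.log n ≤ Real.log m := Real.log_le_log hn0 hm1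
        have h8 : Real.log m ≤ Real.log n + 1 := le_trans (Real.log_le_log hm0 hm2) h4
        exact one_div_le_one_div_of_le (by linarith) h8
      refine le_trans ?_ h5
      rw [← Finset.sum_mul, ← div_eq_mul_one_div, Ioc_sum_eq]
      refine div_le_div_of_nonneg_right ?_ (by linarith)
      have h6 := (range_sum_bounds hf0 hfW hW hfs (n + 1) (L n)).1
      have h7 : δ * Real.log n ^ 2 < (L n : ℝ) + 1 := Nat.lt_floor_add_one _
      linarith
    · filter_upwards [eventually_ge_atTop n0, hlog.eventually_ge_atTop 1, eventually_ge_atTop 1]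
        with n h1 h2 h3
      have hlp : 0 < Real.log n := by linarith
      have hn0 : (0 : ℝ) < n := by exact_mod_cast h3
      show _ ≤ (δ * Real.log n ^ 2 + W) / Real.log n / Real.log n
      refine div_le_div_of_nonneg_right ?_ hlp.le
      have h5 : ∑ m ∈ Finset.Ioc n (n + L n), q m ≤
          ∑ m ∈ Finset.Ioc n (n + L n), f m * (1 / Real.log n) := by
        refine Finset.sum_le_sum (fun m hm => ?_)
        have h6 := Finset.mem_Ioc.mp hm
        rw [h0 m (by omega), div_eq_mul_one_div (f m)]
        refine mul_le_mul_of_nonneg_left ?_ (hf0 m)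
        have hm1 : (n : ℝ) ≤ m := by exact_mod_cast h6.1.le
        exact one_div_le_one_div_of_le hlp (Real.log_le_log hn0 hm1)
      refine le_trans h5 ?_
      rw [← Finset.sum_mul, ← div_eq_mul_one_div, Ioc_sum_eq]
      refine div_le_div_of_nonneg_right ?_ hlp.le
      have h6 := (range_sum_bounds hf0 hfW hW hfs (n + 1) (L n)).2
      have h7 : (L n : ℝ) ≤ δ * Real.log n ^ 2 := Nat.floor_le (by positivity)
      linarith

end Pool.Agent.CRM31
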