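import Pool.Agent.CRM31.GridX

set_option autoImplicit false

open MeasureTheory ProbabilityTheory Filter Topology

namespace Pool.Agent.CRM31

section
variable {q : ℕ → ℝ} {c₁ c₂ : ℝ}

/-- Long blocks below the grid point carry a sum at least `κ log`. -/
lemma long_sum (hT : TwoSided q c₁ c₂) {ε : ℝ} (hε : 0 < ε) : ∃ κ : ℝ, 0 < κ ∧
    ∀ᶠ v : ℕ in atTop, ∀ a t : ℕ, a + t ≤ gx hT v → ε * v - 1 ≤ t →
      κ * lam hT v ≤ QQ q a t := by
  obtain ⟨c, hc, hlow⟩ := grid_lower hT
  have hc1 := hT.pos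
  obtain ⟨n0, hn0, h0⟩ := QQ_lower hT (δ := ε * c / 4) (by positivity)
  have hl2 : Tendsto (fun v => lam hT v ^ 2) atTop atTop :=
    (tendsto_pow_atTop two_ne_zero).comp (lam_top hT)
  refine ⟨c₁ * (ε * c / 4), by positivity, ?_⟩
  filter_upwards [(gx_top hT).eventually_ge_atTop n0, hlow,
    hl2.eventually_ge_atTop (2 * ((n0 : ℝ) + 1) / (ε * c)), (lam_top hT).eventually_gt_atTop 0]
    with v h1 h2 h3 h4 a t hat ht
  have h5 := h0 (gx hT v) a t h1 hat
  refine le_trans ?_ h5
  have hlam : Real.log (gx hT v) = lam hT v := rfl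
  rw [hlam, le_div_iff₀ h4]
  have hεc : 0 < ε * c := by positivity
  rw [div_le_iff₀ hεc] at h3
  have h6 : ε * (c * lam hT v ^ 2) ≤ ε * v := mul_le_mul_of_nonneg_left h2 hε.le
  have h7 : ε * c / 4 * lam hT v ^ 2 ≤ (t : ℝ) - n0 - ε * c / 4 * lam hT v ^ 2 := by nlinarith
  calc c₁ * (ε * c / 4) * lam hT v * lam hT v = c₁ * (ε * c / 4 * lam hT v ^ 2) := by ring
    _ ≤ _ := mul_le_mul_of_nonneg_left h7 hc1.le

lemma sum_range_mul (f : ℕ → ℝ) (K v : ℕ) : ∑ a ∈ Finset.range (K * v), f a =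
    ∑ i ∈ Finset.range K, ∑ r ∈ Finset.range v, f (r + i * v) := by
  induction K with
  | zero => simp
  | succ K ih =>
    rw [show (K + 1) * v = K * v + v by ring, Finset.sum_range_add, ih, Finset.sum_range_succ]
    congr 1
    exact Finset.sum_congr rfl (fun r _ => by rw [Nat.add_comm])

/-- The indices of the blocks of a residue class. -/
def JJ (x v r : ℕ) : Finset ℕ :=
  (Finset.range (x + 1)).filter (fun i => v ≤ r + i * v ∧ r + i * v + v ≤ x)

/-- A residue class with many expected empty blocks, slightly shorter than the grid value. -/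
lemma prog (hT : TwoSided q c₁ c₂) {ε : ℝ} (hε : 0 < ε) (hε1 : ε < 1) : ∃ κ : ℝ, 0 < κ ∧
    ∀ᶠ v : ℕ in atTop, ∃ r : ℕ, Real.exp (κ * lam hT v) / (2 * v) ≤
      ∑ i ∈ JJ (gx hT v) v r, pp q (r + i * v) (v - ⌊ε * v⌋₊) := by
  obtain ⟨κ, hκ, h1⟩ := long_sum hT hε
  obtain ⟨κ₁, hκ₁, h2⟩ := long_sum hT one_pos
  obtain ⟨C, hC, hup⟩ := grid_upper hT
  have hsmall : ∀ᶠ v : ℕ in atTop, (v : ℝ) * Real.exp (- (κ₁ * lam hT v)) ≤ 1 / 2 := by
    have hE := (isLittleO_pow_exp_pos_mul_atTop 3 hκ₁).bound (c := 1) one_pos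
    have hE' := (lam_top hT).eventually hE
    filter_upwards [hup, hE', (lam_top hT).eventually_ge_atTop (2 * C + 1)] with v h3 h4 h5
    have hl0 : 0 < lam hT v := by linarith
    rw [one_mul, Real.norm_eq_abs, Real.norm_eq_abs, abs_of_nonneg (by positivity),
      abs_of_nonneg (Real.exp_pos _).le] at h4
    rw [Real.exp_neg, ← div_eq_mul_inv, div_le_iff₀ (Real.exp_pos _)]
    have h6 : C * lam hT v ^ 2 ≤ 1 / 2 * lam hT v ^ 3 := by
      have h7 : 0 ≤ lam hT v ^ 2 := by positivity
      nlinarith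
    linarith
  refine ⟨κ, hκ, ?_⟩
  filter_upwards [h1, h2, hsmall, eventually_ge_atTop 1] with v h1 h2 h3 h4
  set x := gx hT v with hx
  have hvx : v ≤ x := (gx_grid hT).ge v
  set f : ℕ → ℝ := fun a => if v ≤ a ∧ a + v ≤ x then pp q a v else 0 with hf
  have hf0 : ∀ a, 0 ≤ f a := by
    intro a
    simp only [hf]
    split_ifs
    · exact pp_nonneg hT _ _
    · exact le_refl _
  have hvr : (0 : ℝ) < v := by exact_mod_cast h4
  -- the small starting points are negligible
  have h5 : NN q x v ≤ (v : ℝ) * Real.exp (- (κ₁ * lam hT v)) +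
      ∑ a ∈ Finset.range ((x + 1) * v), f a := by
    have h6 : NN q x v = ∑ a ∈ (Finset.range (x + 1 - v)).filter (fun a => a < v), pp q a v +
        ∑ a ∈ (Finset.range (x + 1 - v)).filter (fun a => ¬ a < v), pp q a v :=
      (Finset.sum_filter_add_sum_filter_not _ _ _).symm
    rw [h6]
    refine add_le_add ?_ ?_
    · have h7 : ∀ a ∈ (Finset.range (x + 1 - v)).filter (fun a => a < v),
          pp q a v ≤ Real.exp (- (κ₁ * lam hT v)) := by
        intro a ha
        have ha1 := Finset.mem_range.mp (Finset.mem_filter.mp ha).1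
        refine le_trans (pp_le_exp hT a v) ?_
        rw [Real.exp_le_exp]
        have := h2 a v (by omega) (by linarith)
        linarith
      refine le_trans (Finset.sum_le_card_nsmul _ _ _ h7) ?_
      rw [nsmul_eq_mul]
      refine mul_le_mul_of_nonneg_right ?_ (Real.exp_pos _).le
      have h8 : ((Finset.range (x + 1 - v)).filter (fun a => a < v)).card ≤ v := by
        calc ((Finset.range (x + 1 - v)).filter (fun a => a < v)).card
            ≤ (Finset.range v).card := by
              refine Finset.card_le_card (fun a ha => ?_)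
              exact Finset.mem_range.mpr (Finset.mem_filter.mp ha).2
          _ = v := Finset.card_range v
      exact_mod_cast h8
    · have h7 : ∑ a ∈ (Finset.range (x + 1 - v)).filter (fun a => ¬ a < v), pp q a v =
          ∑ a ∈ (Finset.range (x + 1 - v)).filter (fun a => ¬ a < v), f a := by
        refine Finset.sum_congr rfl (fun a ha => ?_)
        have ha1 := Finset.mem_range.mp (Finset.mem_filter.mp ha).1
        have ha2 := (Finset.mem_filter.mp ha).2
        simp only [hf]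
        rw [if_pos ⟨by omega, by omega⟩]
      rw [h7]
      refine Finset.sum_le_sum_of_subset_of_nonneg ?_ (fun a _ _ => hf0 a)
      intro a ha
      have ha1 := Finset.mem_range.mp (Finset.mem_filter.mp ha).1
      refine Finset.mem_range.mpr ?_
      have : x + 1 ≤ (x + 1) * v := Nat.le_mul_of_pos_right _ h4
      omega
  have h6 : 1 / 2 ≤ ∑ a ∈ Finset.range ((x + 1) * v), f a := by
    have := gx_spec hT v
    linarith
  rw [sum_range_mul, Finset.sum_comm] at h6
  -- pigeonhole over the residue classes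
  obtain ⟨r, hr, h7⟩ : ∃ r ∈ Finset.range v, 1 / (2 * (v : ℝ)) ≤
      ∑ i ∈ Finset.range (x + 1), f (r + i * v) := by
    by_contra hcon
    push Not at hcon
    have hne : (Finset.range v).Nonempty := ⟨0, Finset.mem_range.mpr (by omega)⟩
    have h8 := Finset.sum_lt_sum_of_nonempty hne hcon
    rw [Finset.sum_const, Finset.card_range, nsmul_eq_mul] at h8
    have h9 : (v : ℝ) * (1 / (2 * (v : ℝ))) = 1 / 2 := by field_simp
    linarith
  refine ⟨r, ?_⟩
  have h8 : ∑ i ∈ Finset.range (x + 1), f (r + i * v) = ∑ i ∈ JJ x v r, pp q (r + i * v) v := by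
    unfold JJ
    rw [Finset.sum_filter]
  rw [h8] at h7
  set t : ℕ := ⌊ε * v⌋₊ with ht
  have htv : t ≤ v := by
    have h9 : (t : ℝ) ≤ ε * v := Nat.floor_le (by positivity)
    have h10 : (t : ℝ) ≤ v := by nlinarith
    exact_mod_cast h10
  have ht1 : ε * v - 1 ≤ t := by
    have := Nat.lt_floor_add_one (ε * (v : ℝ))
    linarith
  have h9 : ∑ i ∈ JJ x v r, pp q (r + i * v) v ≤
      ∑ i ∈ JJ x v r, Real.exp (- (κ * lam hT v)) * pp q (r + i * v) (v - t) := by
    refine Finset.sum_le_sum (fun i hi => ?_)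
    have hi2 := (Finset.mem_filter.mp hi).2
    have h10 : pp q (r + i * v) v = pp q (r + i * v) (v - t) * pp q (r + i * v + (v - t)) t := by
      rw [← pp_add, Nat.sub_add_cancel htv]
    rw [h10, mul_comm]
    refine mul_le_mul_of_nonneg_right ?_ (pp_nonneg hT _ _)
    refine le_trans (pp_le_exp hT _ _) ?_
    rw [Real.exp_le_exp]
    have := h1 (r + i * v + (v - t)) t (by omega) ht1
    linarith
  rw [← Finset.mul_sum] at h9
  have h10 : 1 / (2 * (v : ℝ)) ≤ Real.exp (- (κ * lam hT v)) *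
      ∑ i ∈ JJ x v r, pp q (r + i * v) (v - t) := le_trans h7 h9
  have h11 : Real.exp (κ * lam hT v) * Real.exp (- (κ * lam hT v)) = 1 := by
    rw [← Real.exp_add]; simp
  calc Real.exp (κ * lam hT v) / (2 * v) = Real.exp (κ * lam hT v) * (1 / (2 * (v : ℝ))) := by ring
    _ ≤ Real.exp (κ * lam hT v) * (Real.exp (- (κ * lam hT v)) *
        ∑ i ∈ JJ x v r, pp q (r + i * v) (v - t)) :=
        mul_le_mul_of_nonneg_left h10 (Real.exp_pos _).le
    _ = ∑ i ∈ JJ x v r, pp q (r + i * v) (v - t) := by rw [← mul_assoc, h11, one_mul]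

/-- A point near a prescribed place with a not too small selection probability. -/
lemma centreG (hT : TwoSided q c₁ c₂) {ε : ℝ} (hε : 0 < ε) : ∃ κ : ℝ, 0 < κ ∧
    ∀ᶠ v : ℕ in atTop, ∀ a w : ℕ, a + w ≤ gx hT v → ε * v - 1 ≤ w → w ≤ v →
      ∃ c ∈ Finset.Ioc a (a + w), κ * lam hT v / v ≤ q c := by
  obtain ⟨κ, hκ, h1⟩ := long_sum hT hε
  refine ⟨κ, hκ, ?_⟩
  filter_upwards [h1, (lam_top hT).eventually_gt_atTop 0, eventually_ge_atTop 1]
    with v h1 h2 h3 a w haw hw hwv
  by_contra hcon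
  push Not at hcon
  have h4 := h1 a w haw hw
  have hvr : (0 : ℝ) < v := by exact_mod_cast h3
  have hpos : 0 < κ * lam hT v := by positivity
  have hne : (Finset.Ioc a (a + w)).Nonempty := by
    by_contra hem
    rw [Finset.not_nonempty_iff_eq_empty] at hem
    unfold QQ at h4
    rw [hem, Finset.sum_empty] at h4
    linarith
  have h5 : QQ q a w < ∑ _m ∈ Finset.Ioc a (a + w), κ * lam hT v / v :=
    Finset.sum_lt_sum_of_nonempty hne hcon
  rw [Finset.sum_const, Nat.card_Ioc, Nat.add_sub_cancel_left, nsmul_eq_mul] at h5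
  have h6 : (w : ℝ) ≤ v := by exact_mod_cast hwv
  have h7 : (w : ℝ) * (κ * lam hT v / v) ≤ κ * lam hT v := by
    rw [mul_div_assoc', div_le_iff₀ hvr, mul_comm]
    exact mul_le_mul_of_nonneg_left h6 hpos.le
  linarith

end

end Pool.Agent.CRM31
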